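import Mathlib

set_option autoImplicit false

open MeasureTheory Metric ComplexConjugate
open scoped InnerProductSpace

namespace Pool.Agent.Helper150.Al.Euclid

variable {E : Type} [NormedAddCommGroup E] [NormedSpace ℂ E] [FiniteDimensional ℂ E]

theorem euclid {n : ℕ} (hn : Module.finrank ℂ E = n)
    (h : ∀ x y : E, ‖x + y‖ * ‖x + y‖ + ‖x - y‖ * ‖x - y‖ = 2 * (‖x‖ * ‖x‖ + ‖y‖ * ‖y‖)) :
    Nonempty (E ≃ₗᵢ[ℂ] EuclideanSpace ℂ (Fin n)) := by
  subst hn
  letI : InnerProductSpace ℂ E := InnerProductSpace.ofNorm ℂ h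
  exact ⟨(stdOrthonormalBasis ℂ E).repr⟩

end Pool.Agent.Helper150.Al.Euclid
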