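import Mathlib

set_option autoImplicit false

open MeasureTheory Metric ComplexConjugate
open scoped InnerProductSpace

namespace Pool.Agent.Helper150.Al.Euler

variable {E : Type} [NormedAddCommGroup E] [NormedSpace ℝ E] [FiniteDimensional ℝ E]
  [MeasurableSpace E] [BorelSpace E] (μ : Measure E) [μ.IsAddHaarMeasure]

theorem euler
    (hB : ∀ (X : E → E), ContDiff ℝ 1 X →
      ∫ z, max 0 (1 - ‖z‖) * LinearMap.trace ℝ E (fderiv ℝ X z : E →ₗ[ℝ] E) ∂μ =
        ∫ z in ball (0 : E) 1, fderiv ℝ (fun w : E => ‖w‖) z (X z) ∂μ)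
    (f : E → ℝ) (hf : ContDiff ℝ 1 f) (hom : ∀ (r : ℝ) (z : E), f (r • z) = r ^ 2 * f z) :
    ((Module.finrank ℝ E : ℝ) + 2) * ∫ z, max 0 (1 - ‖z‖) * f z ∂μ =
      ∫ z in ball (0 : E) 1, ‖z‖ * f z ∂μ := by
  have hdf : ∀ z, DifferentiableAt ℝ f z := fun z =>
    (hf.differentiable one_ne_zero).differentiableAt
  -- Euler's identity
  have heuler : ∀ z, fderiv ℝ f z z = 2 * f z := by
    intro z
    have h1 : HasDerivAt (fun r : ℝ => r • z) z 1 := by
      have := (hasDerivAt_id (1 : ℝ)).smul_const z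
      simpa using this
    have h2 : HasDerivAt (fun r : ℝ => f (r • z)) (fderiv ℝ f ((1 : ℝ) • z) z) 1 :=
      (hdf ((1 : ℝ) • z)).hasFDerivAt.comp_hasDerivAt 1 h1
    have h3 : HasDerivAt (fun r : ℝ => f (r • z)) (2 * f z) 1 := by
      have h4 : (fun r : ℝ => f (r • z)) = fun r => r ^ 2 * f z := funext fun r => hom r z
      rw [h4]
      have h5 := (hasDerivAt_pow 2 (1 : ℝ)).mul_const (f z)
      simpa using h5
    have h6 := h2.unique h3
    rwa [one_smul] at h6
  have hX : ContDiff ℝ 1 (fun z : E => f z • z) := hf.smul contDiff_id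
  have hB' := hB (fun z => f z • z) hX
  have hL : ∀ z : E, LinearMap.trace ℝ E (fderiv ℝ (fun z : E => f z • z) z : E →ₗ[ℝ] E) =
      ((Module.finrank ℝ E : ℝ) + 2) * f z := by
    intro z
    have h1 : HasFDerivAt (fun z : E => f z • z)
        (f z • ContinuousLinearMap.id ℝ E + (fderiv ℝ f z).smulRight z) z :=
      (hdf z).hasFDerivAt.smul (hasFDerivAt_id z)
    rw [h1.fderiv]
    have h2 : ((f z • ContinuousLinearMap.id ℝ E + (fderiv ℝ f z).smulRight z : E →L[ℝ] E) :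
        E →ₗ[ℝ] E) = f z • LinearMap.id + LinearMap.smulRight (fderiv ℝ f z : E →ₗ[ℝ] ℝ) z := by
      ext w
      simp
    rw [h2, map_add, map_smul, LinearMap.trace_id, LinearMap.trace_smulRight]
    show f z • (Module.finrank ℝ E : ℝ) + fderiv ℝ f z z = _
    rw [heuler, smul_eq_mul]
    ring
  have hlhs : ∫ z, max 0 (1 - ‖z‖) *
      LinearMap.trace ℝ E (fderiv ℝ (fun z : E => f z • z) z : E →ₗ[ℝ] E) ∂μ =
      ((Module.finrank ℝ E : ℝ) + 2) * ∫ z, max 0 (1 - ‖z‖) * f z ∂μ := by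
    rw [← integral_const_mul]
    congr 1
    funext z
    rw [hL z]
    ring
  have hrhs : ∫ z in ball (0 : E) 1, fderiv ℝ (fun w : E => ‖w‖) z (f z • z) ∂μ =
      ∫ z in ball (0 : E) 1, ‖z‖ * f z ∂μ := by
    apply integral_congr_ae
    apply ae_restrict_of_ae
    have hae : ∀ᵐ z ∂μ, DifferentiableAt ℝ (fun w : E => ‖w‖) z :=
      LipschitzWith.ae_differentiableAt (μ := μ) (lipschitzWith_one_norm : LipschitzWith 1 (fun w : E => ‖w‖))
    filter_upwards [hae] with z hz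
    have h1 : fderiv ℝ (fun w : E => ‖w‖) z z = ‖z‖ := hz.fderiv_norm_self
    rw [map_smul, h1, smul_eq_mul, mul_comm]
  rw [← hlhs, hB', hrhs]

end Pool.Agent.Helper150.Al.Euler
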