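import Mathlib

set_option autoImplicit false

open MeasureTheory Metric ComplexConjugate
open scoped InnerProductSpace

namespace Pool.Agent.Helper150.Al

variable {E : Type} [NormedAddCommGroup E] [NormedSpace ℂ E] [FiniteDimensional ℂ E]
variable {K : Type} [NormedAddCommGroup K] [InnerProductSpace ℂ K] [CompleteSpace K]

/-- the vector field -/
noncomputable def field {n : ℕ} (b : Module.Basis (Fin n) ℂ E) (M : Fin n → K →L[ℂ] K)
    (v : E →L[ℂ] (K →L[ℂ] K)) (ξ η : K) (z : E) : E :=
  ∑ l, ⟪ξ, M l (v z (star (v z) (v z η)))⟫_ℂ • b l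

end Pool.Agent.Helper150.Al
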