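import Mathlib
import Pool.Agent.Helper150.Al.Field

set_option autoImplicit false

open MeasureTheory Metric ComplexConjugate
open scoped InnerProductSpace

namespace Pool.Agent.Helper150.Al.FieldContdiff

variable {E : Type} [NormedAddCommGroup E] [NormedSpace ℂ E] [FiniteDimensional ℂ E]

variable {K : Type} [NormedAddCommGroup K] [InnerProductSpace ℂ K] [CompleteSpace K]


theorem field_contDiff {n : ℕ} (b : Module.Basis (Fin n) ℂ E) (M : Fin n → K →L[ℂ] K)
    (v : E →L[ℂ] (K →L[ℂ] K)) (ξ η : K) : ContDiff ℝ 1 (field b M v ξ η) := by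
  have hv : ContDiff ℝ 1 (fun z => v z) := (v.restrictScalars ℝ).contDiff
  have hR : ContDiff ℝ 1 (fun z => (v z).restrictScalars ℝ) :=
    (ContinuousLinearMap.restrictScalarsL ℂ K K ℝ ℝ).contDiff.comp hv
  have hs : ContDiff ℝ 1 (fun z => star (v z)) :=
    (starL' ℝ : (K →L[ℂ] K) ≃L[ℝ] (K →L[ℂ] K)).contDiff.comp hv
  have hRs : ContDiff ℝ 1 (fun z => (star (v z)).restrictScalars ℝ) :=
    (ContinuousLinearMap.restrictScalarsL ℂ K K ℝ ℝ).contDiff.comp hs
  have h1 : ContDiff ℝ 1 (fun z => v z η) := hR.clm_apply contDiff_const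
  have h2 : ContDiff ℝ 1 (fun z => star (v z) (v z η)) := hRs.clm_apply h1
  have h3 : ContDiff ℝ 1 (fun z => v z (star (v z) (v z η))) := hR.clm_apply h2
  unfold field
  refine ContDiff.sum fun l _ => ?_
  have h4 : ContDiff ℝ 1 (fun z => M l (v z (star (v z) (v z η)))) :=
    ((M l).restrictScalars ℝ).contDiff.comp h3
  exact (contDiff_const.inner ℂ h4).smul contDiff_const

end Pool.Agent.Helper150.Al.FieldContdiff
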