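import Mathlib
import Pool.Agent.Helper150.Al.Field

set_option autoImplicit false

open MeasureTheory Metric ComplexConjugate
open scoped InnerProductSpace

namespace Pool.Agent.Helper150.Al.FieldNorm

variable {E : Type} [NormedAddCommGroup E] [NormedSpace ℂ E] [FiniteDimensional ℂ E]

variable {K : Type} [NormedAddCommGroup K] [InnerProductSpace ℂ K] [CompleteSpace K]


theorem field_norm {n : ℕ} (b : Module.Basis (Fin n) ℂ E) (M : Fin n → K →L[ℂ] K)
    (v : E →L[ℂ] (K →L[ℂ] K))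
    (hM : ∀ φ : E →L[ℂ] ℂ, ‖∑ l, φ (b l) • M l‖ ≤ ‖φ‖)
    (hc : ∀ l z, M l * v z = v z * M l)
    (ξ η : K) (z : E) :
    ‖field b M v ξ η z‖ ≤ ‖star (v z) ξ‖ * ‖star (v z) (v z η)‖ := by
  obtain ⟨φ, hφ1, hφ2⟩ := exists_dual_vector'' ℂ (field b M v ξ η z)
  set w : K := star (v z) (v z η) with hw
  set A : K →L[ℂ] K := ∑ l, φ (b l) • M l with hA
  have hAn : ‖A‖ ≤ 1 := (hM φ).trans hφ1
  have hAv : A (v z w) = v z (A w) := by
    have h1 : A * v z = v z * A := by
      rw [hA, Finset.sum_mul, Finset.mul_sum]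
      refine Finset.sum_congr rfl fun l _ => ?_
      rw [smul_mul_assoc, mul_smul_comm, hc]
    have h2 := congrArg (fun T : K →L[ℂ] K => T w) h1
    exact h2
  have hval : φ (field b M v ξ η z) = ⟪star (v z) ξ, A w⟫_ℂ := by
    have h1 : φ (field b M v ξ η z) = ⟪ξ, A (v z w)⟫_ℂ := by
      unfold field
      rw [map_sum, hA, sum_apply, inner_sum]
      refine Finset.sum_congr rfl fun l _ => ?_
      rw [map_smul, smul_apply, inner_smul_right, smul_eq_mul, mul_comm]
    rw [h1, hAv, ContinuousLinearMap.star_eq_adjoint, ContinuousLinearMap.adjoint_inner_left]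
  have h3 : ‖φ (field b M v ξ η z)‖ = ‖field b M v ξ η z‖ := by
    rw [hφ2]
    simp
  rw [← h3, hval]
  refine (norm_inner_le_norm _ _).trans ?_
  apply mul_le_mul_of_nonneg_left _ (norm_nonneg _)
  calc ‖A w‖ ≤ ‖A‖ * ‖w‖ := A.le_opNorm w
    _ ≤ 1 * ‖w‖ := mul_le_mul_of_nonneg_right hAn (norm_nonneg _)
    _ = ‖w‖ := one_mul _

end Pool.Agent.Helper150.Al.FieldNorm
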