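import Mathlib
import Pool.Agent.Helper150.Al.Field

set_option autoImplicit false

open MeasureTheory Metric ComplexConjugate
open scoped InnerProductSpace

namespace Pool.Agent.Helper150.Al.FieldTrace

variable {E : Type} [NormedAddCommGroup E] [NormedSpace ℂ E] [FiniteDimensional ℂ E]

variable {K : Type} [NormedAddCommGroup K] [InnerProductSpace ℂ K] [CompleteSpace K]


/-- the linear part of the field -/
noncomputable def LL {n : ℕ} (b : Module.Basis (Fin n) ℂ E) (M : Fin n → K →L[ℂ] K)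
    (ξ η : K) : (K →L[ℂ] K) →L[ℂ] E :=
  ∑ l, ((innerSL ℂ ξ).comp ((M l).comp (ContinuousLinearMap.apply ℂ K η))).smulRight (b l)

theorem LL_apply {n : ℕ} (b : Module.Basis (Fin n) ℂ E) (M : Fin n → K →L[ℂ] K)
    (ξ η : K) (a : K →L[ℂ] K) : LL b M ξ η a = ∑ l, ⟪ξ, M l (a η)⟫_ℂ • b l := by
  simp [LL, ContinuousLinearMap.sum_apply]

theorem repr_LL {n : ℕ} (b : Module.Basis (Fin n) ℂ E) (M : Fin n → K →L[ℂ] K)
    (ξ η : K) (a : K →L[ℂ] K) (l : Fin n) : b.repr (LL b M ξ η a) l = ⟪ξ, M l (a η)⟫_ℂ := by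
  rw [LL_apply]
  simp [Finsupp.single_apply]

theorem hasFDerivAt_G (v : E →L[ℂ] (K →L[ℂ] K)) (z : E) :
    ∃ G' : E →L[ℝ] (K →L[ℂ] K), HasFDerivAt (fun z => v z * star (v z) * v z) G' z ∧
      ∀ w, G' w = v w * star (v z) * v z + v z * star (v w) * v z + v z * star (v z) * v w := by
  have h1 : HasFDerivAt (fun z => v z) (v.restrictScalars ℝ) z :=
    (v.restrictScalars ℝ).hasFDerivAt
  have h2 := h1.star
  have h3 := (h1.mul' h2).mul' h1
  refine ⟨_, h3, fun w => ?_⟩
  simp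
  noncomm_ring

theorem field_trace
    {n : ℕ} (b : Module.Basis (Fin n) ℂ E)
    (htr : ∀ f : E →ₗ[ℝ] E, LinearMap.trace ℝ E f =
      ∑ l, ((b.repr (f (b l)) l).re + (b.repr (f (Complex.I • b l)) l).im))
    (M : Fin n → K →L[ℂ] K) (v : E →L[ℂ] (K →L[ℂ] K))
    (hc : ∀ l z, M l * v z = v z * M l) (hc' : ∀ l z, M l * star (v z) = star (v z) * M l)
    (ξ η : K) (z : E) :
    LinearMap.trace ℝ E (fderiv ℝ (field b M v ξ η) z : E →ₗ[ℝ] E) =
      2 * (⟪ξ, (∑ l, M l * v (b l)) (star (v z) (v z η))⟫_ℂ).re +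
      2 * (⟪ξ, v z (star (v z) ((∑ l, M l * v (b l)) η))⟫_ℂ).re := by
  obtain ⟨G', hG, hG'⟩ := hasFDerivAt_G v z
  have hf : field b M v ξ η = fun z => (LL b M ξ η).restrictScalars ℝ (v z * star (v z) * v z) := by
    funext y
    rw [ContinuousLinearMap.coe_restrictScalars', LL_apply]
    rfl
  have hd : HasFDerivAt (field b M v ξ η) (((LL b M ξ η).restrictScalars ℝ).comp G') z := by
    rw [hf]
    exact ((LL b M ξ η).restrictScalars ℝ).hasFDerivAt.comp z hG
  rw [hd.fderiv, htr]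
  have key : ∀ l, ((b.repr ((((LL b M ξ η).restrictScalars ℝ).comp G' : E →ₗ[ℝ] E) (b l)) l).re +
      (b.repr ((((LL b M ξ η).restrictScalars ℝ).comp G' : E →ₗ[ℝ] E) (Complex.I • b l)) l).im) =
      2 * (⟪ξ, (M l * v (b l)) (star (v z) (v z η))⟫_ℂ).re +
      2 * (⟪ξ, v z (star (v z) ((M l * v (b l)) η))⟫_ℂ).re := by
    intro l
    have e1 : b.repr ((((LL b M ξ η).restrictScalars ℝ).comp G' : E →ₗ[ℝ] E) (b l)) l =
        ⟪ξ, M l ((G' (b l)) η)⟫_ℂ := repr_LL _ _ _ _ _ _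
    have e2 : b.repr ((((LL b M ξ η).restrictScalars ℝ).comp G' : E →ₗ[ℝ] E) (Complex.I • b l)) l =
        ⟪ξ, M l ((G' (Complex.I • b l)) η)⟫_ℂ := repr_LL _ _ _ _ _ _
    rw [e1, e2, hG', hG']
    have e3 : star (v (Complex.I • b l)) = -(Complex.I • star (v (b l))) := by
      rw [map_smul, star_smul]
      simp
    have e4 : (M l) ((v z) ((star (v z)) ((v (b l)) η))) =
        (v z) ((star (v z)) ((M l) ((v (b l)) η))) := by
      have h1 := congrArg (fun T : K →L[ℂ] K => T ((star (v z)) ((v (b l)) η))) (hc l z)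
      have h2 := congrArg (fun T : K →L[ℂ] K => T ((v (b l)) η)) (hc' l z)
      simp only [ContinuousLinearMap.mul_apply] at h1 h2
      rw [h1, h2]
    rw [e3, map_smul]
    simp only [ContinuousLinearMap.add_apply, ContinuousLinearMap.mul_apply, map_add,
      ContinuousLinearMap.neg_apply, ContinuousLinearMap.smul_apply, map_smul, map_neg,
      inner_add_right, inner_smul_right, inner_neg_right, Complex.add_re, Complex.add_im,
      Complex.neg_im, Complex.mul_im, Complex.I_re, Complex.I_im, e4]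
    ring
  rw [Finset.sum_congr rfl fun l _ => key l, Finset.sum_add_distrib, ← Finset.mul_sum,
    ← Finset.mul_sum]
  congr 2
  · rw [ContinuousLinearMap.sum_apply, inner_sum, Complex.re_sum]
  · rw [ContinuousLinearMap.sum_apply, map_sum, map_sum, inner_sum, Complex.re_sum]

end Pool.Agent.Helper150.Al.FieldTrace
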