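import Mathlib

set_option autoImplicit false

open MeasureTheory Metric ComplexConjugate
open scoped InnerProductSpace

namespace Pool.Agent.Helper150.Al.IbpLe

variable {E : Type} [NormedAddCommGroup E] [NormedSpace ℝ E] [FiniteDimensional ℝ E]
  [MeasurableSpace E] [BorelSpace E] (μ : Measure E) [μ.IsAddHaarMeasure]

theorem ibp_le
    (hB : ∀ (X : E → E), ContDiff ℝ 1 X →
      ∫ z, max 0 (1 - ‖z‖) * LinearMap.trace ℝ E (fderiv ℝ X z : E →ₗ[ℝ] E) ∂μ =
        ∫ z in ball (0 : E) 1, fderiv ℝ (fun w : E => ‖w‖) z (X z) ∂μ)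
    (X : E → E) (hX : ContDiff ℝ 1 X) (B : E → ℝ) (hBc : Continuous B)
    (hXB : ∀ z, ‖z‖ < 1 → ‖X z‖ ≤ B z) :
    ∫ z, max 0 (1 - ‖z‖) * LinearMap.trace ℝ E (fderiv ℝ X z : E →ₗ[ℝ] E) ∂μ ≤
      ∫ z in ball (0 : E) 1, B z ∂μ := by
  have : ProperSpace E := FiniteDimensional.proper_real E
  have : SecondCountableTopology E := secondCountable_of_proper
  have hpt : ∀ z : E, ‖fderiv ℝ (fun w : E => ‖w‖) z (X z)‖ ≤ ‖X z‖ := by
    intro z
    have h1 : ‖fderiv ℝ (fun w : E => ‖w‖) z‖ ≤ 1 := by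
      have := norm_fderiv_le_of_lipschitz ℝ (x₀ := z) (lipschitzWith_one_norm (E := E))
      simpa using this
    calc ‖fderiv ℝ (fun w : E => ‖w‖) z (X z)‖ ≤ ‖fderiv ℝ (fun w : E => ‖w‖) z‖ * ‖X z‖ :=
          ContinuousLinearMap.le_opNorm _ _
      _ ≤ 1 * ‖X z‖ := mul_le_mul_of_nonneg_right h1 (norm_nonneg _)
      _ = ‖X z‖ := one_mul _
  have hBi : IntegrableOn B (ball (0 : E) 1) μ :=
    (hBc.continuousOn.integrableOn_compact (isCompact_closedBall (0 : E) 1)).mono_set
      ball_subset_closedBall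
  have hmeas : Measurable (fun z : E => fderiv ℝ (fun w : E => ‖w‖) z (X z)) := by
    have h1 : Measurable (fun z : E => (fderiv ℝ (fun w : E => ‖w‖) z, X z)) :=
      (measurable_fderiv ℝ _).prodMk hX.continuous.measurable
    have h2 : Continuous (fun p : (E →L[ℝ] ℝ) × E => p.1 p.2) :=
      isBoundedBilinearMap_apply.continuous
    exact h2.measurable.comp h1
  have hFi : IntegrableOn (fun z : E => fderiv ℝ (fun w : E => ‖w‖) z (X z)) (ball (0 : E) 1) μ := by
    refine Integrable.mono' hBi hmeas.aestronglyMeasurable ?_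
    rw [ae_restrict_iff' measurableSet_ball]
    refine Filter.Eventually.of_forall (fun z hz => ?_)
    have : ‖z‖ < 1 := by simpa using hz
    exact (hpt z).trans (hXB z this)
  rw [hB X hX]
  refine setIntegral_mono_on hFi hBi measurableSet_ball (fun z hz => ?_)
  have hz1 : ‖z‖ < 1 := by simpa using hz
  exact (Real.le_norm_self _).trans ((hpt z).trans (hXB z hz1))

end Pool.Agent.Helper150.Al.IbpLe
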