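import Mathlib

set_option autoImplicit false

open MeasureTheory Metric ComplexConjugate
open scoped InnerProductSpace

namespace Pool.Agent.Helper150.Al.IbpScalar

variable {E : Type} [NormedAddCommGroup E] [NormedSpace ℝ E] [FiniteDimensional ℝ E]
  [MeasurableSpace E] [BorelSpace E] (μ : Measure E) [μ.IsAddHaarMeasure]

theorem ibp_scalar (f : E → ℝ) (hf : ContDiff ℝ 1 f) (v : E) :
    ∫ z, max 0 (1 - ‖z‖) * fderiv ℝ f z v ∂μ =
      ∫ z in ball (0 : E) 1, fderiv ℝ (fun w : E => ‖w‖) z v * f z ∂μ := by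
  let χ : ContDiffBump (0 : E) := ⟨2, 3, by norm_num, by norm_num⟩
  let F : E → ℝ := fun z => χ z * f z
  have hFc : ContDiff ℝ 1 F := χ.contDiff.mul hf
  have hFs : HasCompactSupport F := χ.hasCompactSupport.mul_right
  obtain ⟨C, hC⟩ := ContDiff.lipschitzWith_of_hasCompactSupport hFs hFc one_ne_zero
  let ρ : E → ℝ := fun z => max 0 (1 - ‖z‖)
  have hρL : LipschitzWith 1 ρ := by
    refine LipschitzWith.const_max ?_ 0
    refine LipschitzWith.of_dist_le_mul fun x y => ?_
    rw [NNReal.coe_one, one_mul, Real.dist_eq]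
    have : (1 - ‖x‖) - (1 - ‖y‖) = -(‖x‖ - ‖y‖) := by ring
    rw [this, abs_neg, dist_eq_norm]
    exact abs_norm_sub_norm_le x y
  have hρs : HasCompactSupport ρ := HasCompactSupport.intro (isCompact_closedBall (0 : E) 1)
    (fun x hx => by
      have : 1 < ‖x‖ := by simpa using hx
      exact max_eq_left (by linarith))
  have hFf : ∀ x ∈ ball (0 : E) 1, F =ᶠ[nhds x] f := by
    intro x hx
    filter_upwards [isOpen_ball.mem_nhds hx] with y hy
    have : χ y = 1 := χ.one_of_mem_closedBall (by
      rw [mem_ball] at hy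
      rw [mem_closedBall]
      exact le_trans hy.le (by show (1 : ℝ) ≤ 2; norm_num))
    simp only [F, this, one_mul]
  have key := LipschitzWith.integral_lineDeriv_mul_eq (μ := μ) hC hρL hρs v
  have hL : ∀ x, lineDeriv ℝ F x v * ρ x = max 0 (1 - ‖x‖) * fderiv ℝ f x v := by
    intro x
    by_cases hx : x ∈ ball (0 : E) 1
    · have h1 : lineDeriv ℝ F x v = fderiv ℝ f x v := by
        rw [(hFc.differentiable one_ne_zero).differentiableAt.lineDeriv_eq_fderiv,
          (hFf x hx).fderiv_eq]
      rw [h1, mul_comm]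
    · have h1 : 1 ≤ ‖x‖ := by simpa using hx
      have h2 : max 0 (1 - ‖x‖) = 0 := max_eq_left (by linarith)
      simp only [ρ, h2, mul_zero, zero_mul]
  have hR : ∀ᵐ x ∂μ, lineDeriv ℝ ρ x (-v) * F x =
      (ball (0 : E) 1).indicator (fun z => fderiv ℝ (fun w : E => ‖w‖) z v * f z) x := by
    have h1 : ∀ᵐ x ∂μ, DifferentiableAt ℝ (fun w : E => ‖w‖) x :=
      (lipschitzWith_one_norm (E := E)).ae_differentiableAt
    have h2 : ∀ᵐ x ∂μ, x ∉ sphere (0 : E) 1 :=
      compl_mem_ae_iff.2 (Measure.addHaar_sphere_of_ne_zero μ (0 : E) one_ne_zero)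
    filter_upwards [h1, h2] with x hx1 hx2
    by_cases hx : x ∈ ball (0 : E) 1
    · rw [Set.indicator_of_mem hx]
      have h3 : ρ =ᶠ[nhds x] fun z => 1 - ‖z‖ := by
        filter_upwards [isOpen_ball.mem_nhds hx] with y hy
        have : ‖y‖ < 1 := by simpa using hy
        exact max_eq_right (by linarith)
      have h4 : DifferentiableAt ℝ (fun z : E => 1 - ‖z‖) x := hx1.const_sub 1
      have h5 : DifferentiableAt ℝ ρ x := h4.congr_of_eventuallyEq h3
      rw [h5.lineDeriv_eq_fderiv, h3.fderiv_eq, fderiv_const_sub, (hFf x hx).eq_of_nhds]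
      simp
    · rw [Set.indicator_of_notMem hx]
      have h3 : 1 < ‖x‖ := by
        have h4 : 1 ≤ ‖x‖ := by simpa using hx
        have h5 : ‖x‖ ≠ 1 := by simpa using hx2
        exact lt_of_le_of_ne h4 (Ne.symm h5)
      have h4 : ρ =ᶠ[nhds x] fun _ => (0 : ℝ) := by
        have : {y : E | 1 < ‖y‖} ∈ nhds x :=
          (isOpen_lt continuous_const continuous_norm).mem_nhds h3
        filter_upwards [this] with y hy
        exact max_eq_left (by
          have : 1 < ‖y‖ := hy
          linarith)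
      have h5 : DifferentiableAt ℝ ρ x := (differentiableAt_const _).congr_of_eventuallyEq h4
      rw [h5.lineDeriv_eq_fderiv, h4.fderiv_eq]
      simp
  rw [← integral_indicator measurableSet_ball, ← integral_congr_ae hR, ← key]
  exact integral_congr_ae (Filter.Eventually.of_forall fun x => (hL x).symm)

end Pool.Agent.Helper150.Al.IbpScalar
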