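import Mathlib

set_option autoImplicit false

open MeasureTheory Metric ComplexConjugate
open scoped InnerProductSpace

namespace Pool.Agent.Helper150.Al.IbpVector

variable {E : Type} [NormedAddCommGroup E] [NormedSpace ℝ E] [FiniteDimensional ℝ E]
  [MeasurableSpace E] [BorelSpace E] (μ : Measure E) [μ.IsAddHaarMeasure]

theorem ibp_vector
    (hA : ∀ (f : E → ℝ), ContDiff ℝ 1 f → ∀ v : E,
      ∫ z, max 0 (1 - ‖z‖) * fderiv ℝ f z v ∂μ =
        ∫ z in ball (0 : E) 1, fderiv ℝ (fun w : E => ‖w‖) z v * f z ∂μ)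
    (X : E → E) (hX : ContDiff ℝ 1 X) :
    ∫ z, max 0 (1 - ‖z‖) * LinearMap.trace ℝ E (fderiv ℝ X z : E →ₗ[ℝ] E) ∂μ =
      ∫ z in ball (0 : E) 1, fderiv ℝ (fun w : E => ‖w‖) z (X z) ∂μ := by
  set β := Module.finBasis ℝ E with hβ
  let c : Fin (Module.finrank ℝ E) → (E →L[ℝ] ℝ) := fun j =>
    (β.coord j).toContinuousLinearMap
  have hc : ∀ j x, c j x = β.repr x j := fun j x => rfl
  have hXd : Differentiable ℝ X := hX.differentiable (by norm_num)
  have hcf : ∀ j z, fderiv ℝ (fun w => c j (X w)) z (β j) = c j (fderiv ℝ X z (β j)) := by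
    intro j z
    have := ((c j).hasFDerivAt.comp z (hXd z).hasFDerivAt).fderiv
    have h2 : (fun w => c j (X w)) = (c j) ∘ X := rfl
    rw [h2, this]
    rfl
  have htr : ∀ z, LinearMap.trace ℝ E (fderiv ℝ X z : E →ₗ[ℝ] E) =
      ∑ j, fderiv ℝ (fun w => c j (X w)) z (β j) := by
    intro z
    rw [LinearMap.trace_eq_matrix_trace ℝ β, Matrix.trace]
    refine Finset.sum_congr rfl fun j _ => ?_
    rw [Matrix.diag_apply, LinearMap.toMatrix_apply, hcf, hc]
    rfl
  have hcX : ∀ j, ContDiff ℝ 1 (fun w => c j (X w)) := fun j => (c j).contDiff.comp hX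
  have hn : ∀ z, fderiv ℝ (fun w : E => ‖w‖) z (X z) =
      ∑ j, fderiv ℝ (fun w : E => ‖w‖) z (β j) * c j (X z) := by
    intro z
    conv_lhs => rw [← β.sum_repr (X z)]
    rw [map_sum]
    refine Finset.sum_congr rfl fun j _ => ?_
    rw [map_smul, smul_eq_mul, mul_comm, hc]
  simp_rw [htr, hn, Finset.mul_sum]
  rw [integral_finsetSum, integral_finsetSum]
  · exact Finset.sum_congr rfl fun j _ => hA _ (hcX j) (β j)
  · intro j _
    have h1 : IntegrableOn (fun z => ‖β j‖ * ‖c j (X z)‖) (ball (0 : E) 1) μ := by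
      have : IntegrableOn (fun z => ‖β j‖ * ‖c j (X z)‖) (closedBall (0 : E) 1) μ :=
        (continuous_const.mul (hcX j).continuous.norm).continuousOn.integrableOn_compact
          (isCompact_closedBall 0 1)
      exact this.mono_set ball_subset_closedBall
    refine Integrable.mono' h1 ?_ (ae_of_all _ fun z => ?_)
    · exact ((measurable_fderiv_apply_const ℝ (fun w : E => ‖w‖) (β j)).mul
        (hcX j).continuous.measurable).aestronglyMeasurable
    · rw [norm_mul]
      refine mul_le_mul_of_nonneg_right ?_ (norm_nonneg _)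
      refine (ContinuousLinearMap.le_opNorm _ _).trans ?_
      have h3 : ‖fderiv ℝ (fun w : E => ‖w‖) z‖ ≤ 1 := by
        have := norm_fderiv_le_of_lipschitz ℝ (lipschitzWith_one_norm (E := E)) (x₀ := z)
        simpa using this
      calc ‖fderiv ℝ (fun w : E => ‖w‖) z‖ * ‖β j‖ ≤ 1 * ‖β j‖ :=
            mul_le_mul_of_nonneg_right h3 (norm_nonneg _)
        _ = ‖β j‖ := one_mul _
  · intro j _
    refine Continuous.integrable_of_hasCompactSupport ?_ ?_
    · refine (continuous_const.max (continuous_const.sub continuous_norm)).mul ?_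
      exact ((hcX j).continuous_fderiv (by norm_num)).clm_apply continuous_const
    · refine HasCompactSupport.intro (isCompact_closedBall (0:E) 1) fun z hz => ?_
      rw [mem_closedBall_zero_iff, not_le] at hz
      rw [max_eq_left (by linarith), zero_mul]

end Pool.Agent.Helper150.Al.IbpVector
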