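import Mathlib

set_option autoImplicit false

open MeasureTheory Metric ComplexConjugate
open scoped InnerProductSpace

namespace Pool.Agent.Helper150.Al.LowerBound

variable {E : Type} [NormedAddCommGroup E] [NormedSpace ℂ E] [FiniteDimensional ℂ E]

variable [MeasurableSpace E] [BorelSpace E] (μ : Measure E) [μ.IsAddHaarMeasure]

theorem lower_bound : ∃ c : ℝ, 0 < c ∧ ∀ ℓ : E →L[ℂ] ℂ,
    c * ‖ℓ‖ ^ 2 ≤ ∫ z, max 0 (1 - ‖z‖) * ‖ℓ z‖ ^ 2 ∂μ := by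
  haveI : ProperSpace E := FiniteDimensional.proper ℂ E
  haveI : ProperSpace (E →L[ℂ] ℂ) := FiniteDimensional.proper ℂ _
  have hjc : Continuous (fun p : (E →L[ℂ] ℂ) × E => max 0 (1 - ‖p.2‖) * ‖p.1 p.2‖ ^ 2) := by
    have h1 : Continuous (fun p : (E →L[ℂ] ℂ) × E => p.1 p.2) :=
      continuous_fst.clm_apply continuous_snd
    exact (continuous_const.max (continuous_const.sub continuous_snd.norm)).mul (h1.norm.pow 2)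
  have hfc : ∀ ℓ : E →L[ℂ] ℂ, Continuous (fun z : E => max 0 (1 - ‖z‖) * ‖ℓ z‖ ^ 2) := by
    intro ℓ
    exact hjc.comp (continuous_const.prodMk continuous_id)
  have hzero : ∀ (ℓ : E →L[ℂ] ℂ) (z : E), z ∉ closedBall (0 : E) 1 →
      max 0 (1 - ‖z‖) * ‖ℓ z‖ ^ 2 = 0 := by
    intro ℓ z hz
    rw [mem_closedBall_zero_iff, not_le] at hz
    rw [max_eq_left (by linarith), zero_mul]
  have hset : ∀ ℓ : E →L[ℂ] ℂ, ∫ z in closedBall (0 : E) 1, max 0 (1 - ‖z‖) * ‖ℓ z‖ ^ 2 ∂μ =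
      ∫ z, max 0 (1 - ‖z‖) * ‖ℓ z‖ ^ 2 ∂μ := fun ℓ =>
    setIntegral_eq_integral_of_forall_compl_eq_zero (hzero ℓ)
  have hq : Continuous (fun ℓ : E →L[ℂ] ℂ => ∫ z, max 0 (1 - ‖z‖) * ‖ℓ z‖ ^ 2 ∂μ) := by
    have h1 : Continuous (fun ℓ : E →L[ℂ] ℂ =>
        ∫ z in closedBall (0 : E) 1, max 0 (1 - ‖z‖) * ‖ℓ z‖ ^ 2 ∂μ) :=
      continuous_parametric_integral_of_continuous (f := fun (ℓ : E →L[ℂ] ℂ) (z : E) =>
        max 0 (1 - ‖z‖) * ‖ℓ z‖ ^ 2) hjc (isCompact_closedBall 0 1)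
    simpa only [hset] using h1
  have hpos : ∀ ℓ : E →L[ℂ] ℂ, ℓ ≠ 0 → 0 < ∫ z, max 0 (1 - ‖z‖) * ‖ℓ z‖ ^ 2 ∂μ := by
    intro ℓ hℓ
    obtain ⟨z0, hz0⟩ : ∃ z0, ℓ z0 ≠ 0 := by
      by_contra hc
      push Not at hc
      exact hℓ (ContinuousLinearMap.ext hc)
    obtain ⟨t, ht⟩ : ∃ t : ℝ, t = 1 / (2 * (‖z0‖ + 1)) := ⟨_, rfl⟩
    have ht0 : 0 < t := by rw [ht]; positivity
    have hn : ‖(t : ℂ) • z0‖ < 1 := by
      rw [norm_smul, Complex.norm_real, Real.norm_of_nonneg ht0.le, ht, one_div,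
        inv_mul_lt_iff₀ (by positivity)]
      linarith [norm_nonneg z0]
    have hsupp : HasCompactSupport (fun z : E => max 0 (1 - ‖z‖) * ‖ℓ z‖ ^ 2) :=
      HasCompactSupport.intro (isCompact_closedBall (0 : E) 1) (hzero ℓ)
    refine Continuous.integral_pos_of_hasCompactSupport_nonneg_nonzero (x := (t : ℂ) • z0)
      (hfc ℓ) hsupp (fun z => by positivity) ?_
    have h1 : 0 < max 0 (1 - ‖(t : ℂ) • z0‖) := lt_max_of_lt_right (by linarith)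
    have h2 : ℓ ((t : ℂ) • z0) ≠ 0 := by
      rw [map_smul, smul_eq_mul]
      exact mul_ne_zero (by exact_mod_cast ht0.ne') hz0
    have h3 : 0 < ‖ℓ ((t : ℂ) • z0)‖ := norm_pos_iff.2 h2
    positivity
  have hscale : ∀ (t : ℝ) (ℓ : E →L[ℂ] ℂ), ∫ z, max 0 (1 - ‖z‖) * ‖((t : ℂ) • ℓ) z‖ ^ 2 ∂μ =
      t ^ 2 * ∫ z, max 0 (1 - ‖z‖) * ‖ℓ z‖ ^ 2 ∂μ := by
    intro t ℓ
    rw [← integral_const_mul]
    congr 1
    ext z
    rw [ContinuousLinearMap.smul_apply, norm_smul, Complex.norm_real, mul_pow, Real.norm_eq_abs,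
      sq_abs]
    ring
  have hunit : ∀ ℓ : E →L[ℂ] ℂ, ℓ ≠ 0 →
      (((‖ℓ‖⁻¹ : ℝ) : ℂ) • ℓ) ∈ sphere (0 : E →L[ℂ] ℂ) 1 := by
    intro ℓ hℓ
    have h0 : 0 < ‖ℓ‖ := norm_pos_iff.2 hℓ
    rw [mem_sphere_zero_iff_norm, norm_smul, Complex.norm_real, Real.norm_of_nonneg (by positivity),
      inv_mul_cancel₀ h0.ne']
  by_cases hs : (sphere (0 : E →L[ℂ] ℂ) 1).Nonempty
  · obtain ⟨ℓ0, hℓ0, hmin⟩ := (isCompact_sphere (0 : E →L[ℂ] ℂ) 1).exists_isMinOn hs hq.continuousOn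
    have hℓ0ne : ℓ0 ≠ 0 := by
      intro h
      rw [h] at hℓ0
      simp at hℓ0
    refine ⟨_, hpos ℓ0 hℓ0ne, fun ℓ => ?_⟩
    by_cases hℓ : ℓ = 0
    · rw [hℓ]
      simp
    · have h0 : 0 < ‖ℓ‖ := norm_pos_iff.2 hℓ
      have h1 := isMinOn_iff.1 hmin _ (hunit ℓ hℓ)
      rw [hscale] at h1
      calc _ ≤ (‖ℓ‖⁻¹ ^ 2 * ∫ z, max 0 (1 - ‖z‖) * ‖ℓ z‖ ^ 2 ∂μ) * ‖ℓ‖ ^ 2 :=
            mul_le_mul_of_nonneg_right h1 (by positivity)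
        _ = _ := by field_simp
  · refine ⟨1, one_pos, fun ℓ => ?_⟩
    by_cases hℓ : ℓ = 0
    · rw [hℓ]
      simp
    · exact (hs ⟨_, hunit ℓ hℓ⟩).elim

end Pool.Agent.Helper150.Al.LowerBound
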