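import Mathlib
import Pool.Agent.Helper150.Al.Field

set_option autoImplicit false

open MeasureTheory Metric ComplexConjugate
open scoped InnerProductSpace

namespace Pool.Agent.Helper150.Al.MainIneq

variable {E : Type} [NormedAddCommGroup E] [NormedSpace ℂ E] [FiniteDimensional ℂ E]

variable [MeasurableSpace E] [BorelSpace E] (μ : Measure E) [μ.IsAddHaarMeasure]

variable {K : Type} [NormedAddCommGroup K] [InnerProductSpace ℂ K] [CompleteSpace K]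


theorem main_ineq
    (hD : ∀ (f : E → ℝ), ContDiff ℝ 1 f → (∀ (r : ℝ) (z : E), f (r • z) = r ^ 2 * f z) →
      ((Module.finrank ℝ E : ℝ) + 2) * ∫ z, max 0 (1 - ‖z‖) * f z ∂μ =
        ∫ z in ball (0 : E) 1, ‖z‖ * f z ∂μ)
    (hCl : ∀ (X : E → E), ContDiff ℝ 1 X → ∀ (B : E → ℝ), Continuous B →
      (∀ z, ‖z‖ < 1 → ‖X z‖ ≤ B z) →
      ∫ z, max 0 (1 - ‖z‖) * LinearMap.trace ℝ E (fderiv ℝ X z : E →ₗ[ℝ] E) ∂μ ≤
        ∫ z in ball (0 : E) 1, B z ∂μ)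
    {n : ℕ} (b : Module.Basis (Fin n) ℂ E) (M : Fin n → K →L[ℂ] K) (v : E →L[ℂ] (K →L[ℂ] K))
    (hv : ‖v‖ ≤ 1) (ξ η : K)
    (hcd : ContDiff ℝ 1 (field b M v ξ η))
    (htr : ∀ z, LinearMap.trace ℝ E (fderiv ℝ (field b M v ξ η) z : E →ₗ[ℝ] E) =
      2 * (⟪ξ, (∑ l, M l * v (b l)) (star (v z) (v z η))⟫_ℂ).re +
      2 * (⟪ξ, v z (star (v z) ((∑ l, M l * v (b l)) η))⟫_ℂ).re)
    (hno : ∀ z, ‖field b M v ξ η z‖ ≤ ‖star (v z) ξ‖ * ‖star (v z) (v z η)‖) :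
    4 * ∫ z, max 0 (1 - ‖z‖) *
        ((⟪ξ, (∑ l, M l * v (b l)) (star (v z) (v z η))⟫_ℂ).re +
          (⟪ξ, v z (star (v z) ((∑ l, M l * v (b l)) η))⟫_ℂ).re) ∂μ +
      ∫ z in ball (0 : E) 1, (‖z‖ ^ 2 * ‖v z η‖ ^ 2 - ‖star (v z) (v z η)‖ ^ 2) ∂μ ≤
    (2 * (n : ℝ) + 2) * ∫ z, max 0 (1 - ‖z‖) * (‖star (v z) ξ‖ ^ 2 + ‖v z η‖ ^ 2) ∂μ := by
  haveI : ProperSpace E := FiniteDimensional.proper ℂ E
  -- the elementary inequality
  have key : ∀ N a p q : ℝ, 0 ≤ N → N < 1 → 0 ≤ q → q ≤ N * p → 0 ≤ p →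
      2 * (a * q) ≤ N * a ^ 2 + N * p ^ 2 - (N ^ 2 * p ^ 2 - q ^ 2) := by
    intro N a p q hN hN1 hq hqp hp
    rcases hN.eq_or_lt with h0 | h0
    · subst h0
      have hq0 : q = 0 := le_antisymm (by simpa using hqp) hq
      subst hq0
      simp
    · have h1 : q ^ 2 ≤ (N * p) ^ 2 := pow_le_pow_left₀ hq hqp 2
      have h2 : q ^ 2 * (1 - N) ≤ (N * p) ^ 2 * (1 - N) :=
        mul_le_mul_of_nonneg_right h1 (by linarith)
      have h3 : N * (2 * (a * q)) ≤ N * (N * a ^ 2 + N * p ^ 2 - (N ^ 2 * p ^ 2 - q ^ 2)) := by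
        nlinarith [sq_nonneg (N * a - q)]
      exact le_of_mul_le_mul_left h3 h0
  -- continuity
  have hvc : Continuous fun z => v z := v.continuous
  have hsc : Continuous fun z => star (v z) := hvc.star
  have hca : Continuous fun z => ‖star (v z) ξ‖ := (hsc.clm_apply continuous_const).norm
  have hcp : Continuous fun z => ‖v z η‖ := (hvc.clm_apply continuous_const).norm
  have hcq : Continuous fun z => ‖star (v z) (v z η)‖ :=
    (hsc.clm_apply (hvc.clm_apply continuous_const)).norm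
  -- smoothness of the quadratic function
  have hfs : ContDiff ℝ 1 fun z : E => ‖star (v z) ξ‖ ^ 2 + ‖v z η‖ ^ 2 := by
    have hv1 : ContDiff ℝ 1 fun z : E => v z := by
      have : ContDiff ℝ 1 (v.restrictScalars ℝ) := ContinuousLinearMap.contDiff _
      exact this
    have hs1 : ContDiff ℝ 1 fun z : E => star (v z) := by
      have : ContDiff ℝ 1 fun A : (K →L[ℂ] K) => star A :=
        (starL' ℝ : (K →L[ℂ] K) ≃L[ℝ] (K →L[ℂ] K)).contDiff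
      exact this.comp hv1
    have happ : ∀ (w : K), ContDiff ℝ 1 fun A : (K →L[ℂ] K) => A w := by
      intro w
      have : ContDiff ℝ 1 ((ContinuousLinearMap.apply ℂ K w).restrictScalars ℝ) :=
        ContinuousLinearMap.contDiff _
      exact this
    have h1 : ContDiff ℝ 1 fun z : E => star (v z) ξ := (happ ξ).comp hs1
    have h2 : ContDiff ℝ 1 fun z : E => v z η := (happ η).comp hv1
    exact (h1.norm_sq ℂ).add (h2.norm_sq ℂ)
  have hhom : ∀ (r : ℝ) (z : E), ‖star (v (r • z)) ξ‖ ^ 2 + ‖v (r • z) η‖ ^ 2 =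
      r ^ 2 * (‖star (v z) ξ‖ ^ 2 + ‖v z η‖ ^ 2) := by
    intro r z
    have h1 : v (r • z) = (r : ℂ) • v z := by
      rw [← map_smul]
      congr 1
    rw [h1, star_smul, ContinuousLinearMap.smul_apply, ContinuousLinearMap.smul_apply,
      norm_smul, norm_smul, norm_star]
    have h2 : ‖(r : ℂ)‖ ^ 2 = r ^ 2 := by
      rw [Complex.norm_real, Real.norm_eq_abs, sq_abs]
    rw [mul_pow, mul_pow, h2]
    ring
  have hD' := hD _ hfs hhom
  have hfr : (Module.finrank ℝ E : ℝ) = 2 * n := by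
    rw [finrank_real_of_complex, Module.finrank_eq_card_basis b, Fintype.card_fin]
    push_cast; ring
  rw [hfr] at hD'
  -- the bound of the vector field
  have hX : ∀ z : E, ‖z‖ < 1 → ‖field b M v ξ η z‖ ≤
      (‖z‖ * (‖star (v z) ξ‖ ^ 2 + ‖v z η‖ ^ 2) -
        (‖z‖ ^ 2 * ‖v z η‖ ^ 2 - ‖star (v z) (v z η)‖ ^ 2)) / 2 := by
    intro z hz
    have hvz : ‖v z‖ ≤ ‖z‖ := by
      refine (v.le_opNorm z).trans ?_
      calc ‖v‖ * ‖z‖ ≤ 1 * ‖z‖ := mul_le_mul_of_nonneg_right hv (norm_nonneg _)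
        _ = ‖z‖ := one_mul _
    have hq : ‖star (v z) (v z η)‖ ≤ ‖z‖ * ‖v z η‖ := by
      refine ((star (v z)).le_opNorm _).trans ?_
      rw [norm_star]
      exact mul_le_mul_of_nonneg_right hvz (norm_nonneg _)
    have := key ‖z‖ ‖star (v z) ξ‖ ‖v z η‖ ‖star (v z) (v z η)‖ (norm_nonneg _) hz
      (norm_nonneg _) hq (norm_nonneg _)
    have h2 := hno z
    linarith
  have hC' := hCl (field b M v ξ η) hcd (fun z =>
      (‖z‖ * (‖star (v z) ξ‖ ^ 2 + ‖v z η‖ ^ 2) -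
        (‖z‖ ^ 2 * ‖v z η‖ ^ 2 - ‖star (v z) (v z η)‖ ^ 2)) / 2) (by fun_prop) hX
  have hI1 : IntegrableOn (fun z : E => ‖z‖ * (‖star (v z) ξ‖ ^ 2 + ‖v z η‖ ^ 2))
      (ball (0 : E) 1) μ := by
    have hc : Continuous fun z : E => ‖z‖ * (‖star (v z) ξ‖ ^ 2 + ‖v z η‖ ^ 2) := by fun_prop
    exact (hc.continuousOn.integrableOn_compact (isCompact_closedBall 0 1)).mono_set
      ball_subset_closedBall
  have hI2 : IntegrableOn (fun z : E => ‖z‖ ^ 2 * ‖v z η‖ ^ 2 - ‖star (v z) (v z η)‖ ^ 2)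
      (ball (0 : E) 1) μ := by
    have hc : Continuous fun z : E => ‖z‖ ^ 2 * ‖v z η‖ ^ 2 - ‖star (v z) (v z η)‖ ^ 2 := by
      fun_prop
    exact (hc.continuousOn.integrableOn_compact (isCompact_closedBall 0 1)).mono_set
      ball_subset_closedBall
  have hR : ∫ z in ball (0 : E) 1, (‖z‖ * (‖star (v z) ξ‖ ^ 2 + ‖v z η‖ ^ 2) -
        (‖z‖ ^ 2 * ‖v z η‖ ^ 2 - ‖star (v z) (v z η)‖ ^ 2)) / 2 ∂μ =
      ((∫ z in ball (0 : E) 1, ‖z‖ * (‖star (v z) ξ‖ ^ 2 + ‖v z η‖ ^ 2) ∂μ) -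
        ∫ z in ball (0 : E) 1, (‖z‖ ^ 2 * ‖v z η‖ ^ 2 - ‖star (v z) (v z η)‖ ^ 2) ∂μ) / 2 := by
    rw [integral_div, integral_sub hI1 hI2]
  have hL : ∫ z, max 0 (1 - ‖z‖) *
        LinearMap.trace ℝ E (fderiv ℝ (field b M v ξ η) z : E →ₗ[ℝ] E) ∂μ =
      2 * ∫ z, max 0 (1 - ‖z‖) *
        ((⟪ξ, (∑ l, M l * v (b l)) (star (v z) (v z η))⟫_ℂ).re +
          (⟪ξ, v z (star (v z) ((∑ l, M l * v (b l)) η))⟫_ℂ).re) ∂μ := by
    rw [← integral_const_mul]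
    apply integral_congr_ae
    filter_upwards with z
    rw [htr z]
    ring
  rw [hL, hR] at hC'
  linarith

end Pool.Agent.Helper150.Al.MainIneq
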