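import Mathlib

set_option autoImplicit false

open MeasureTheory Metric ComplexConjugate
open scoped InnerProductSpace

namespace Pool.Agent.Helper150.Al.NearData

theorem near_data_final {K : Type} [NormedAddCommGroup K] [InnerProductSpace ℂ K]
    [CompleteSpace K] (V : K →L[ℂ] K) (N : ℝ) (hN0 : 0 ≤ N) (hN1 : N ≤ 1) (hV : ‖V‖ ≤ N)
    (χ y : K) (hχ : ‖χ‖ ≤ 1) :
    ‖((N ^ 2 : ℝ) : ℂ) * ⟪χ, y⟫_ℂ - ⟪χ, V (star V y)⟫_ℂ‖ ^ 2 ≤
      N ^ 2 * ‖y‖ ^ 2 - ‖star V y‖ ^ 2 := by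
  set u := star V y with hu
  have h1 : ((N ^ 2 : ℝ) : ℂ) * ⟪χ, y⟫_ℂ - ⟪χ, V u⟫_ℂ =
      ⟪χ, ((N ^ 2 : ℝ) : ℂ) • y - V u⟫_ℂ := by
    rw [inner_sub_right, inner_smul_right]
  have h2 : ‖⟪χ, ((N ^ 2 : ℝ) : ℂ) • y - V u⟫_ℂ‖ ≤ ‖((N ^ 2 : ℝ) : ℂ) • y - V u‖ := by
    refine (norm_inner_le_norm _ _).trans ?_
    calc ‖χ‖ * ‖((N ^ 2 : ℝ) : ℂ) • y - V u‖ ≤ 1 * ‖((N ^ 2 : ℝ) : ℂ) • y - V u‖ :=
          mul_le_mul_of_nonneg_right hχ (norm_nonneg _)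
      _ = _ := one_mul _
  have h3 : ‖((N ^ 2 : ℝ) : ℂ) • y - V u‖ ^ 2 =
      N ^ 4 * ‖y‖ ^ 2 - 2 * (N ^ 2 * ‖u‖ ^ 2) + ‖V u‖ ^ 2 := by
    rw [@norm_sub_sq ℂ]
    have e1 : ‖((N ^ 2 : ℝ) : ℂ) • y‖ ^ 2 = N ^ 4 * ‖y‖ ^ 2 := by
      rw [norm_smul, Complex.norm_real, Real.norm_eq_abs, abs_of_nonneg (by positivity)]
      ring
    have e2 : RCLike.re ⟪((N ^ 2 : ℝ) : ℂ) • y, V u⟫_ℂ = N ^ 2 * ‖u‖ ^ 2 := by
      rw [inner_smul_left, Complex.conj_ofReal]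
      have e3 : ⟪y, V u⟫_ℂ = ⟪u, u⟫_ℂ := by
        rw [hu, ContinuousLinearMap.star_eq_adjoint, ContinuousLinearMap.adjoint_inner_left]
      rw [e3, inner_self_eq_norm_sq_to_K]
      simp
      norm_cast
      ring
    rw [e1, e2]
  have h4 : ‖V u‖ ^ 2 ≤ N ^ 2 * ‖u‖ ^ 2 := by
    have : ‖V u‖ ≤ N * ‖u‖ := (V.le_opNorm u).trans (mul_le_mul_of_nonneg_right hV (norm_nonneg _))
    calc ‖V u‖ ^ 2 ≤ (N * ‖u‖) ^ 2 := pow_le_pow_left₀ (norm_nonneg _) this 2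
      _ = _ := by ring
  have h5 : ‖u‖ ^ 2 ≤ N ^ 2 * ‖y‖ ^ 2 := by
    have : ‖u‖ ≤ N * ‖y‖ := by
      refine ((star V).le_opNorm y).trans (mul_le_mul_of_nonneg_right ?_ (norm_nonneg _))
      rw [norm_star]
      exact hV
    calc ‖u‖ ^ 2 ≤ (N * ‖y‖) ^ 2 := pow_le_pow_left₀ (norm_nonneg _) this 2
      _ = _ := by ring
  rw [h1]
  calc ‖⟪χ, ((N ^ 2 : ℝ) : ℂ) • y - V u⟫_ℂ‖ ^ 2 ≤ ‖((N ^ 2 : ℝ) : ℂ) • y - V u‖ ^ 2 :=
        pow_le_pow_left₀ (norm_nonneg _) h2 2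
    _ ≤ N ^ 2 * (N ^ 2 * ‖y‖ ^ 2 - ‖u‖ ^ 2) := by rw [h3]; nlinarith
    _ ≤ 1 * (N ^ 2 * ‖y‖ ^ 2 - ‖u‖ ^ 2) := by
        apply mul_le_mul_of_nonneg_right _ (by linarith)
        nlinarith
    _ = _ := by ring

theorem near_data {E : Type} [NormedAddCommGroup E] [NormedSpace ℂ E] [FiniteDimensional ℂ E]
    {K : Type} [NormedAddCommGroup K] [InnerProductSpace ℂ K] [CompleteSpace K]
    {n : ℕ} (b : Module.Basis (Fin n) ℂ E) (M : Fin n → K →L[ℂ] K)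
    (v : E →L[ℂ] (K →L[ℂ] K))
    (hM : ∀ φ : E →L[ℂ] ℂ, ‖∑ l, φ (b l) • M l‖ ≤ ‖φ‖)
    (hv : ‖v‖ ≤ 1) (η : K) (hη : ‖η‖ ≤ 1) (τ : ℝ) (hτ : 0 < τ)
    (hτ2 : τ ≤ ‖(∑ l, M l * v (b l)) η‖) :
    ∃ (d : Fin n → ℂ) (c : Fin n → Fin n → Fin n → ℂ),
      (∀ l, ‖d l‖ ≤ ‖b l‖) ∧ (∀ i j l, ‖c i j l‖ ≤ ‖b i‖ * ‖b j‖ * ‖b l‖) ∧
      τ ≤ (∑ l, ‖(LinearMap.toContinuousLinearMap (b.coord l) : E →L[ℂ] ℂ)‖) * ‖d‖ ∧
      (∀ z, ‖∑ l, d l * b.repr z l‖ ≤ ‖v z η‖) ∧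
      ∀ z : E, ‖z‖ ≤ 1 → ‖((‖z‖ ^ 2 : ℝ) : ℂ) * ∑ l, d l * b.repr z l -
        ∑ i, ∑ j, ∑ l, c i j l * (b.repr z i * conj (b.repr z j) * b.repr z l)‖ ^ 2 ≤
          ‖z‖ ^ 2 * ‖v z η‖ ^ 2 - ‖star (v z) (v z η)‖ ^ 2 := by
  have hT : (∑ l, M l * v (b l)) η = ∑ l, M l (v (b l) η) := by
    rw [ContinuousLinearMap.sum_apply]
    rfl
  have hne : Nonempty (Fin n) := by
    by_contra hcon
    rw [not_nonempty_iff] at hcon
    rw [hT, Finset.univ_eq_empty, Finset.sum_empty, norm_zero] at hτ2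
    exact absurd hτ (not_lt.2 hτ2)
  obtain ⟨l0, hl0⟩ := Finite.exists_max (fun l => ‖v (b l) η‖)
  have hMl : ∀ l, ‖M l‖ ≤ ‖(LinearMap.toContinuousLinearMap (b.coord l) : E →L[ℂ] ℂ)‖ := by
    intro l
    have h := hM (LinearMap.toContinuousLinearMap (b.coord l))
    have h2 : ∑ k, (LinearMap.toContinuousLinearMap (b.coord l) : E →L[ℂ] ℂ) (b k) • M k = M l := by
      rw [Finset.sum_eq_single l]
      · simp
      · intro k _ hk
        simp [Finsupp.single_apply, hk]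
      · intro h
        exact absurd (Finset.mem_univ _) h
    rwa [h2] at h
  have hT2 : ‖(∑ l, M l * v (b l)) η‖ ≤
      (∑ l, ‖(LinearMap.toContinuousLinearMap (b.coord l) : E →L[ℂ] ℂ)‖) * ‖v (b l0) η‖ := by
    rw [hT, Finset.sum_mul]
    refine (norm_sum_le _ _).trans (Finset.sum_le_sum fun l _ => ?_)
    refine ((M l).le_opNorm _).trans ?_
    exact mul_le_mul (hMl l) (hl0 l) (norm_nonneg _) (norm_nonneg _)
  have hpos : 0 < ‖v (b l0) η‖ := by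
    by_contra hcon
    have h0 : ‖v (b l0) η‖ = 0 := le_antisymm (not_lt.1 hcon) (norm_nonneg _)
    rw [h0, mul_zero] at hT2
    linarith
  set χ : K := ((‖v (b l0) η‖⁻¹ : ℝ) : ℂ) • v (b l0) η with hχdef
  have hχ : ‖χ‖ = 1 := by
    rw [hχdef, norm_smul, Complex.norm_real, Real.norm_eq_abs, abs_of_pos (inv_pos.2 hpos),
      inv_mul_cancel₀ hpos.ne']
  have hvb : ∀ z, ‖v z‖ ≤ ‖z‖ := by
    intro z
    refine (v.le_opNorm z).trans ?_
    calc ‖v‖ * ‖z‖ ≤ 1 * ‖z‖ := mul_le_mul_of_nonneg_right hv (norm_nonneg _)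
      _ = _ := one_mul _
  have hvη : ∀ z, ‖v z η‖ ≤ ‖z‖ := by
    intro z
    refine ((v z).le_opNorm η).trans ?_
    calc ‖v z‖ * ‖η‖ ≤ ‖z‖ * 1 := mul_le_mul (hvb z) hη (norm_nonneg _) (norm_nonneg _)
      _ = _ := mul_one _
  have hin : ∀ y : K, ‖⟪χ, y⟫_ℂ‖ ≤ ‖y‖ := by
    intro y
    have := norm_inner_le_norm (𝕜 := ℂ) χ y
    rwa [hχ, one_mul] at this
  have hvz : ∀ z, v z = ∑ l, b.repr z l • v (b l) := by
    intro z
    conv_lhs => rw [← b.sum_repr z]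
    rw [map_sum]
    exact Finset.sum_congr rfl fun l _ => map_smul v _ _
  have hlin : ∀ z, ∑ l, ⟪χ, v (b l) η⟫_ℂ * b.repr z l = ⟪χ, v z η⟫_ℂ := by
    intro z
    rw [hvz z, ContinuousLinearMap.sum_apply, inner_sum]
    refine Finset.sum_congr rfl fun l _ => ?_
    rw [ContinuousLinearMap.smul_apply, inner_smul_right, mul_comm]
  have hstar : ∀ z, star (v z) = ∑ j, conj (b.repr z j) • star (v (b j)) := by
    intro z
    rw [hvz z, star_sum]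
    exact Finset.sum_congr rfl fun l _ => star_smul _ _
  have htri : ∀ z, ∑ i, ∑ j, ∑ l, ⟪χ, v (b i) (star (v (b j)) (v (b l) η))⟫_ℂ *
      (b.repr z i * conj (b.repr z j) * b.repr z l) = ⟪χ, v z (star (v z) (v z η))⟫_ℂ := by
    intro z
    have e1 : v z η = ∑ l, b.repr z l • v (b l) η := by
      rw [hvz z, ContinuousLinearMap.sum_apply]
      rfl
    have e2 : star (v z) (v z η) = ∑ j, ∑ l, (conj (b.repr z j) * b.repr z l) •
        star (v (b j)) (v (b l) η) := by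
      rw [hstar z, ContinuousLinearMap.sum_apply]
      refine Finset.sum_congr rfl fun j _ => ?_
      rw [ContinuousLinearMap.smul_apply, e1, map_sum, Finset.smul_sum]
      refine Finset.sum_congr rfl fun l _ => ?_
      rw [map_smul, smul_smul]
    have e3 : v z (star (v z) (v z η)) = ∑ i, ∑ j, ∑ l,
        (b.repr z i * conj (b.repr z j) * b.repr z l) •
        v (b i) (star (v (b j)) (v (b l) η)) := by
      rw [e2]
      conv_lhs => rw [hvz z]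
      rw [ContinuousLinearMap.sum_apply]
      refine Finset.sum_congr rfl fun i _ => ?_
      rw [ContinuousLinearMap.smul_apply, map_sum, Finset.smul_sum]
      refine Finset.sum_congr rfl fun j _ => ?_
      rw [map_sum, Finset.smul_sum]
      refine Finset.sum_congr rfl fun l _ => ?_
      rw [map_smul, smul_smul, mul_assoc]
    rw [e3, inner_sum]
    refine Finset.sum_congr rfl fun i _ => ?_
    rw [inner_sum]
    refine Finset.sum_congr rfl fun j _ => ?_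
    rw [inner_sum]
    refine Finset.sum_congr rfl fun l _ => ?_
    rw [inner_smul_right, mul_comm]
  refine ⟨fun l => ⟪χ, v (b l) η⟫_ℂ, fun i j l => ⟪χ, v (b i) (star (v (b j)) (v (b l) η))⟫_ℂ,
    ?_, ?_, ?_, ?_, ?_⟩
  · intro l
    exact (hin _).trans (hvη _)
  · intro i j l
    refine (hin _).trans ?_
    refine ((v (b i)).le_opNorm _).trans ?_
    rw [mul_assoc]
    refine mul_le_mul (hvb _) ?_ (norm_nonneg _) (norm_nonneg _)
    refine ((star (v (b j))).le_opNorm _).trans ?_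
    rw [norm_star]
    exact mul_le_mul (hvb _) (hvη _) (norm_nonneg _) (norm_nonneg _)
  · refine hτ2.trans (hT2.trans ?_)
    apply mul_le_mul_of_nonneg_left _ (Finset.sum_nonneg fun _ _ => norm_nonneg _)
    have h1 : ‖⟪χ, v (b l0) η⟫_ℂ‖ = ‖v (b l0) η‖ := by
      rw [hχdef, inner_smul_left, Complex.conj_ofReal, inner_self_eq_norm_sq_to_K, norm_mul,
        Complex.norm_real, Real.norm_eq_abs, abs_of_pos (inv_pos.2 hpos)]
      rw [norm_pow]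
      simp only [Complex.coe_algebraMap, Complex.norm_real, norm_norm]
      field_simp
    rw [← h1]
    exact norm_le_pi_norm (fun l => ⟪χ, v (b l) η⟫_ℂ) l0
  · intro z
    rw [hlin z]
    exact hin _
  · intro z hz
    rw [hlin z, htri z]
    exact near_data_final (v z) ‖z‖ (norm_nonneg _) hz (hvb z) χ (v z η) hχ.le

end Pool.Agent.Helper150.Al.NearData
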