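import Mathlib

set_option autoImplicit false

open MeasureTheory Metric ComplexConjugate
open scoped InnerProductSpace

namespace Pool.Agent.Helper150.Al.Parallelogram

variable {E : Type} [NormedAddCommGroup E] [NormedSpace ℂ E] [FiniteDimensional ℂ E]

section aux

variable {n : ℕ} (b : Module.Basis (Fin n) ℂ E) (c : Fin n → Fin n → Fin n → ℂ)

/-- the trilinear form (conjugate linear in the second variable) -/
noncomputable def parT (x y z : E) : ℂ :=
  ∑ i, ∑ j, ∑ l, c i j l * (b.repr x i * conj (b.repr y j) * b.repr z l)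

omit [FiniteDimensional ℂ E] in
theorem parT_add1 (x x' y z : E) :
    parT b c (x + x') y z = parT b c x y z + parT b c x' y z := by
  unfold parT
  simp only [← Finset.sum_add_distrib]
  refine Finset.sum_congr rfl fun i _ => Finset.sum_congr rfl fun j _ =>
    Finset.sum_congr rfl fun l _ => ?_
  simp only [map_add, Finsupp.coe_add, Pi.add_apply]
  ring

omit [FiniteDimensional ℂ E] in
theorem parT_add2 (x y y' z : E) :
    parT b c x (y + y') z = parT b c x y z + parT b c x y' z := by
  unfold parT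
  simp only [← Finset.sum_add_distrib]
  refine Finset.sum_congr rfl fun i _ => Finset.sum_congr rfl fun j _ =>
    Finset.sum_congr rfl fun l _ => ?_
  simp only [map_add, Finsupp.coe_add, Pi.add_apply]
  ring

omit [FiniteDimensional ℂ E] in
theorem parT_add3 (x y z z' : E) :
    parT b c x y (z + z') = parT b c x y z + parT b c x y z' := by
  unfold parT
  simp only [← Finset.sum_add_distrib]
  refine Finset.sum_congr rfl fun i _ => Finset.sum_congr rfl fun j _ =>
    Finset.sum_congr rfl fun l _ => ?_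
  simp only [map_add, Finsupp.coe_add, Pi.add_apply]
  ring

omit [FiniteDimensional ℂ E] in
theorem parT_smul1 (s : ℂ) (x y z : E) :
    parT b c (s • x) y z = s * parT b c x y z := by
  unfold parT
  simp only [Finset.mul_sum]
  refine Finset.sum_congr rfl fun i _ => Finset.sum_congr rfl fun j _ =>
    Finset.sum_congr rfl fun l _ => ?_
  simp only [map_smul, Finsupp.coe_smul, Pi.smul_apply, smul_eq_mul]
  ring

omit [FiniteDimensional ℂ E] in
theorem parT_smul2 (s : ℂ) (x y z : E) :
    parT b c x (s • y) z = conj s * parT b c x y z := by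
  unfold parT
  simp only [Finset.mul_sum]
  refine Finset.sum_congr rfl fun i _ => Finset.sum_congr rfl fun j _ =>
    Finset.sum_congr rfl fun l _ => ?_
  simp only [map_smul, Finsupp.coe_smul, Pi.smul_apply, smul_eq_mul, map_mul]
  ring

omit [FiniteDimensional ℂ E] in
theorem parT_smul3 (s : ℂ) (x y z : E) :
    parT b c x y (s • z) = s * parT b c x y z := by
  unfold parT
  simp only [Finset.mul_sum]
  refine Finset.sum_congr rfl fun i _ => Finset.sum_congr rfl fun j _ =>
    Finset.sum_congr rfl fun l _ => ?_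
  simp only [map_smul, Finsupp.coe_smul, Pi.smul_apply, smul_eq_mul]
  ring

omit [FiniteDimensional ℂ E] in
/-- claim 1 -/
theorem par_quad (L : E →ₗ[ℂ] ℂ)
    (h : ∀ z : E, ((‖z‖ ^ 2 : ℝ) : ℂ) * L z = parT b c z z z) (x y : E)
    (hx : L x = 0) (hy : L y ≠ 0) :
    ∃ A B C : ℂ, ∀ s : ℂ, ((‖x + s • y‖ ^ 2 : ℝ) : ℂ) =
      A + B * conj s + C * s + ((‖y‖ ^ 2 : ℝ) : ℂ) * (s * conj s) := by
  set Q00 := parT b c x x x
  set Q10 := parT b c y x x + parT b c x x y
  set Q01 := parT b c x y x
  set Q11 := parT b c y y x + parT b c x y y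
  set Q20 := parT b c y x y
  set Q21 := parT b c y y y with hQ21
  have hexp : ∀ s : ℂ, parT b c (x + s • y) (x + s • y) (x + s • y) =
      Q00 + Q10 * s + Q01 * conj s + Q11 * (s * conj s) + Q20 * s ^ 2 + Q21 * (s ^ 2 * conj s) := by
    intro s
    simp only [parT_add1, parT_add2, parT_add3, parT_smul1, parT_smul2, parT_smul3]
    simp only [Q00, Q10, Q01, Q11, Q20, Q21]
    ring
  have hL : ∀ s : ℂ, L (x + s • y) = s * L y := by
    intro s; simp [hx]
  have h1 : ∀ s : ℂ, ((‖x + s • y‖ ^ 2 : ℝ) : ℂ) * (s * L y) =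
      Q00 + Q10 * s + Q01 * conj s + Q11 * (s * conj s) + Q20 * s ^ 2 + Q21 * (s ^ 2 * conj s) := by
    intro s
    rw [← hexp s, ← h, hL]
  have h00 : Q00 = 0 := by
    have := h1 0
    simpa using this.symm
  have h21 : Q21 = ((‖y‖ ^ 2 : ℝ) : ℂ) * L y := by
    rw [hQ21, ← h]
  let g : ℂ → ℂ := fun s => ((‖x + s • y‖ ^ 2 : ℝ) : ℂ) * L y -
    (Q10 + Q11 * conj s + Q20 * s + Q21 * (s * conj s))
  have hgc : Continuous g := by
    have h2 : Continuous fun s : ℂ => ((‖x + s • y‖ ^ 2 : ℝ) : ℂ) :=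
      Complex.continuous_ofReal.comp (((continuous_const.add
        (continuous_id.smul continuous_const)).norm).pow 2)
    have h3 : Continuous fun s : ℂ => conj s := Complex.continuous_conj
    exact (h2.mul continuous_const).sub (((continuous_const.add
      (continuous_const.mul h3)).add (continuous_const.mul continuous_id)).add
      (continuous_const.mul (continuous_id.mul h3)))
  have hg : ∀ s : ℂ, s * g s = Q01 * conj s := by
    intro s
    have := h1 s
    rw [h00] at this
    simp only [g]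
    linear_combination this
  have hg1 : ∀ r : ℝ, g (r : ℂ) = Q01 := by
    have hdense : Dense ({0}ᶜ : Set ℝ) := dense_compl_singleton 0
    have hcont : Continuous fun r : ℝ => g (r : ℂ) := hgc.comp Complex.continuous_ofReal
    have := Continuous.ext_on hdense hcont (continuous_const (y := Q01)) (by
      intro r hr
      have hr' : (r : ℂ) ≠ 0 := by
        simpa using hr
      have h4 := hg (r : ℂ)
      rw [Complex.conj_ofReal, mul_comm Q01] at h4
      exact mul_left_cancel₀ hr' h4)
    intro r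
    exact congrFun this r
  have hg2 : ∀ r : ℝ, g ((r : ℂ) * Complex.I) = - Q01 := by
    have hdense : Dense ({0}ᶜ : Set ℝ) := dense_compl_singleton 0
    have hcont : Continuous fun r : ℝ => g ((r : ℂ) * Complex.I) :=
      hgc.comp (Complex.continuous_ofReal.mul continuous_const)
    have := Continuous.ext_on hdense hcont (continuous_const (y := -Q01)) (by
      intro r hr
      have hr' : ((r : ℂ) * Complex.I) ≠ 0 := by
        simpa using hr
      have h4 := hg ((r : ℂ) * Complex.I)
      rw [map_mul, Complex.conj_ofReal, Complex.conj_I] at h4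
      apply mul_left_cancel₀ hr'
      rw [h4]; ring)
    intro r
    exact congrFun this r
  have h01 : Q01 = 0 := by
    have h5 := hg1 0
    have h6 := hg2 0
    simp only [Complex.ofReal_zero, zero_mul] at h5 h6
    rw [h5] at h6
    have : (2 : ℂ) * Q01 = 0 := by linear_combination h6
    simpa using this
  have hg0 : ∀ s, g s = 0 := by
    intro s
    by_cases hs : s = 0
    · subst hs
      have := hg1 0
      rw [h01] at this
      simpa using this
    · have := hg s
      rw [h01, zero_mul] at this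
      rcases mul_eq_zero.mp this with h | h
      · exact absurd h hs
      · exact h
  refine ⟨Q10 / L y, Q11 / L y, Q20 / L y, fun s => ?_⟩
  have h7 := hg0 s
  simp only [g] at h7
  rw [h21] at h7
  field_simp
  linear_combination h7

omit [FiniteDimensional ℂ E] in
theorem par_claim2 (L : E →ₗ[ℂ] ℂ)
    (h : ∀ z : E, ((‖z‖ ^ 2 : ℝ) : ℂ) * L z = parT b c z z z) (x y : E)
    (hy : L y ≠ 0) :
    ‖x + y‖ ^ 2 + ‖x - y‖ ^ 2 = 2 * (‖x‖ ^ 2 + ‖y‖ ^ 2) := by
  set t : ℂ := L x / L y with ht
  have hx' : L (x - t • y) = 0 := by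
    simp only [map_sub, map_smul, smul_eq_mul, ht]
    field_simp
    ring
  obtain ⟨A, B, C, hABC⟩ := par_quad b c L h (x - t • y) y hx' hy
  have e1 := hABC (t + 1)
  have e2 := hABC (t - 1)
  have e3 := hABC t
  have f1 : x - t • y + (t + 1) • y = x + y := by
    rw [add_smul, one_smul]; abel
  have f2 : x - t • y + (t - 1) • y = x - y := by
    rw [sub_smul, one_smul]; abel
  have f3 : x - t • y + t • y = x := by abel
  rw [f1] at e1
  rw [f2] at e2
  rw [f3] at e3
  have : (((‖x + y‖ ^ 2 + ‖x - y‖ ^ 2 : ℝ)) : ℂ) = ((2 * (‖x‖ ^ 2 + ‖y‖ ^ 2) : ℝ) : ℂ) := by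
    have k1 : (((‖x + y‖ ^ 2 + ‖x - y‖ ^ 2 : ℝ)) : ℂ) =
        ((‖x + y‖ ^ 2 : ℝ) : ℂ) + ((‖x - y‖ ^ 2 : ℝ) : ℂ) := by push_cast; ring
    have k2 : ((2 * (‖x‖ ^ 2 + ‖y‖ ^ 2) : ℝ) : ℂ) =
        2 * (((‖x‖ ^ 2 : ℝ) : ℂ) + ((‖y‖ ^ 2 : ℝ) : ℂ)) := by push_cast; ring
    rw [k1, k2, e1, e2, e3]
    simp only [map_add, map_sub, map_one]
    ring
  exact_mod_cast this

end aux

theorem parallelogram {n : ℕ} (b : Module.Basis (Fin n) ℂ E) (d : Fin n → ℂ) (hd : d ≠ 0)
    (c : Fin n → Fin n → Fin n → ℂ)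
    (h : ∀ z : E, ((‖z‖ ^ 2 : ℝ) : ℂ) * ∑ l, d l * b.repr z l =
      ∑ i, ∑ j, ∑ l, c i j l * (b.repr z i * conj (b.repr z j) * b.repr z l)) (x y : E) :
    ‖x + y‖ * ‖x + y‖ + ‖x - y‖ * ‖x - y‖ = 2 * (‖x‖ * ‖x‖ + ‖y‖ * ‖y‖) := by
  let L : E →ₗ[ℂ] ℂ := ∑ l, d l • b.coord l
  have hLz : ∀ z, L z = ∑ l, d l * b.repr z l := by
    intro z
    simp [L]
  have hL : ∀ z : E, ((‖z‖ ^ 2 : ℝ) : ℂ) * L z = parT b c z z z := by
    intro z
    rw [hLz, h z]; rfl
  obtain ⟨k, hk⟩ : ∃ k, d k ≠ 0 := by
    by_contra hcon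
    push Not at hcon
    exact hd (funext hcon)
  have hy0 : L (b k) ≠ 0 := by
    rw [hLz]
    simp [Finsupp.single_apply, hk]
  have hmain : ∀ y : E, ‖x + y‖ ^ 2 + ‖x - y‖ ^ 2 = 2 * (‖x‖ ^ 2 + ‖y‖ ^ 2) := by
    intro y
    by_cases hy : L y ≠ 0
    · exact par_claim2 b c L hL x y hy
    · push Not at hy
      have hdense : Dense ({0}ᶜ : Set ℝ) := dense_compl_singleton 0
      have hc1 : Continuous fun r : ℝ => y + (r : ℂ) • b k :=
        continuous_const.add (Complex.continuous_ofReal.smul continuous_const)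
      have := Continuous.ext_on hdense
        (f := fun r : ℝ => ‖x + (y + (r : ℂ) • b k)‖ ^ 2 + ‖x - (y + (r : ℂ) • b k)‖ ^ 2)
        (g := fun r : ℝ => 2 * (‖x‖ ^ 2 + ‖y + (r : ℂ) • b k‖ ^ 2))
        ((((continuous_const.add hc1).norm).pow 2).add (((continuous_const.sub hc1).norm).pow 2))
        (continuous_const.mul (continuous_const.add ((hc1.norm).pow 2))) (by
          intro r hr
          apply par_claim2 b c L hL
          have hr' : (r : ℂ) ≠ 0 := by simpa using hr
          simp only [map_add, map_smul, smul_eq_mul, hy, zero_add]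
          exact mul_ne_zero hr' hy0)
      have h0 := congrFun this 0
      simpa using h0
  have := hmain y
  simp only [pow_two] at this
  exact this

end Pool.Agent.Helper150.Al.Parallelogram
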