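import Mathlib

set_option autoImplicit false

open MeasureTheory Metric ComplexConjugate
open scoped InnerProductSpace

namespace Pool.Agent.Helper150.Al.Stability

variable {E : Type} [NormedAddCommGroup E] [NormedSpace ℂ E] [FiniteDimensional ℂ E]

variable [MeasurableSpace E] [BorelSpace E] (μ : Measure E) [μ.IsAddHaarMeasure]

variable {K : Type} [NormedAddCommGroup K] [InnerProductSpace ℂ K] [CompleteSpace K]

omit [MeasurableSpace E] [BorelSpace E] [CompleteSpace K] [InnerProductSpace ℂ K] in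
theorem stab_compact (f : E → ℝ) : HasCompactSupport (fun z : E => max 0 (1 - ‖z‖) * f z) := by
  have : ProperSpace E := FiniteDimensional.proper ℂ E
  refine HasCompactSupport.intro (isCompact_closedBall (0 : E) 1) fun z hz => ?_
  have h1 : 1 < ‖z‖ := by simpa using hz
  rw [max_eq_left (by linarith), zero_mul]

theorem stab_int (f : E → ℝ) (hf : Continuous f) :
    Integrable (fun z : E => max 0 (1 - ‖z‖) * f z) μ := by
  have : ProperSpace E := FiniteDimensional.proper ℂ E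
  refine Continuous.integrable_of_hasCompactSupport ?_ (stab_compact f)
  fun_prop

theorem stability
    {n : ℕ} (b : Module.Basis (Fin n) ℂ E) (M : Fin n → K →L[ℂ] K) (v : E →L[ℂ] (K →L[ℂ] K))
    (hv : ‖v‖ ≤ 1) (t ε : ℝ) (ht : 0 < t) (hε : 0 ≤ ε)
    (hT : ‖∑ l, M l * v (b l)‖ ≤ t) (η : K) (hη : ‖η‖ ≤ 1)
    (hη2 : t ^ 2 - ε ^ 2 ≤ ‖(∑ l, M l * v (b l)) η‖ ^ 2)
    (hmain : ∀ ξ : K, 4 * ∫ z, max 0 (1 - ‖z‖) *
        ((⟪ξ, (∑ l, M l * v (b l)) (star (v z) (v z η))⟫_ℂ).re +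
          (⟪ξ, v z (star (v z) ((∑ l, M l * v (b l)) η))⟫_ℂ).re) ∂μ +
      ∫ z in ball (0 : E) 1, (‖z‖ ^ 2 * ‖v z η‖ ^ 2 - ‖star (v z) (v z η)‖ ^ 2) ∂μ ≤
    (2 * (n : ℝ) + 2) * ∫ z, max 0 (1 - ‖z‖) * (‖star (v z) ξ‖ ^ 2 + ‖v z η‖ ^ 2) ∂μ) :
    ∃ Q : ℝ, ∫ z, max 0 (1 - ‖z‖) * ‖v z η‖ ^ 2 ∂μ ≤ Q ∧
      Q ≤ 2 * ∫ z, max 0 (1 - ‖z‖) ∂μ ∧
      ∫ z in ball (0 : E) 1, (‖z‖ ^ 2 * ‖v z η‖ ^ 2 - ‖star (v z) (v z η)‖ ^ 2) ∂μ ≤
        (2 * (n : ℝ) + 2 - 4 * t) * Q + 4 * ε * ∫ z, max 0 (1 - ‖z‖) ∂μ := by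
  set T : K →L[ℂ] K := ∑ l, M l * v (b l) with hTdef
  set ξ : K := ((t⁻¹ : ℝ) : ℂ) • T η with hξdef
  have htξ : T η = (t : ℂ) • ξ := by
    rw [hξdef, smul_smul, ← Complex.ofReal_mul, mul_inv_cancel₀ ht.ne', Complex.ofReal_one, one_smul]
  have hTη : ‖T η‖ ≤ t := by
    calc ‖T η‖ ≤ ‖T‖ * ‖η‖ := T.le_opNorm η
      _ ≤ t * 1 := mul_le_mul hT hη (norm_nonneg _) ht.le
      _ = t := mul_one t
  have hξ : ‖ξ‖ ≤ 1 := by
    have h1 : ‖T η‖ = t * ‖ξ‖ := by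
      rw [htξ, norm_smul, Complex.norm_real, Real.norm_of_nonneg ht.le]
    rw [h1] at hTη
    nlinarith [norm_nonneg ξ]
  -- the error vector
  have he : ‖star T ξ - (t : ℂ) • η‖ ≤ ε := by
    have h1 : (t : ℂ) • (star T ξ - (t : ℂ) • η) = star T (T η) - ((t ^ 2 : ℝ) : ℂ) • η := by
      rw [smul_sub, ← map_smul, ← htξ, smul_smul, ← Complex.ofReal_mul, ← pow_two]
    have h2 : ‖star T (T η) - ((t ^ 2 : ℝ) : ℂ) • η‖ ^ 2 ≤ (t * ε) ^ 2 := by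
      rw [@norm_sub_sq ℂ]
      have h3 : ‖star T (T η)‖ ≤ t * ‖T η‖ := by
        calc ‖star T (T η)‖ ≤ ‖star T‖ * ‖T η‖ := (star T).le_opNorm _
          _ = ‖T‖ * ‖T η‖ := by rw [norm_star]
          _ ≤ t * ‖T η‖ := mul_le_mul_of_nonneg_right hT (norm_nonneg _)
      have h4 : ⟪star T (T η), ((t ^ 2 : ℝ) : ℂ) • η⟫_ℂ = ((t ^ 2 * ‖T η‖ ^ 2 : ℝ) : ℂ) := by
        rw [inner_smul_right, ContinuousLinearMap.star_eq_adjoint,
          ContinuousLinearMap.adjoint_inner_left, inner_self_eq_norm_sq_to_K]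
        push_cast
        rfl
      have h5 : ‖((t ^ 2 : ℝ) : ℂ) • η‖ ≤ t ^ 2 := by
        rw [norm_smul, Complex.norm_real, Real.norm_of_nonneg (by positivity)]
        nlinarith [norm_nonneg η, sq_nonneg t]
      rw [h4]
      have h6 : RCLike.re (((t ^ 2 * ‖T η‖ ^ 2 : ℝ) : ℂ)) = t ^ 2 * ‖T η‖ ^ 2 := by
        exact Complex.ofReal_re _
      rw [h6]
      have h7 : ‖star T (T η)‖ ^ 2 ≤ t ^ 2 * ‖T η‖ ^ 2 := by
        have := pow_le_pow_left₀ (norm_nonneg _) h3 2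
        rw [mul_pow] at this
        exact this
      have h8 : ‖((t ^ 2 : ℝ) : ℂ) • η‖ ^ 2 ≤ (t ^ 2) ^ 2 := pow_le_pow_left₀ (norm_nonneg _) h5 2
      have h9 : t ^ 2 * (t ^ 2 - ε ^ 2) ≤ t ^ 2 * ‖T η‖ ^ 2 :=
        mul_le_mul_of_nonneg_left hη2 (by positivity)
      nlinarith
    have h3 := abs_le_of_sq_le_sq h2 (by positivity)
    have h4 : ‖star T (T η) - ((t ^ 2 : ℝ) : ℂ) • η‖ ≤ t * ε := (le_abs_self _).trans h3
    rw [← h1, norm_smul, Complex.norm_real, Real.norm_of_nonneg ht.le] at h4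
    exact le_of_mul_le_mul_left h4 ht
  have hvz : ∀ z : E, ‖z‖ ≤ 1 → ‖v z‖ ≤ 1 := by
    intro z hz
    calc ‖v z‖ ≤ ‖v‖ * ‖z‖ := v.le_opNorm z
      _ ≤ 1 * 1 := mul_le_mul hv hz (norm_nonneg _) zero_le_one
      _ = 1 := one_mul 1
  have hvη : ∀ z : E, ‖z‖ ≤ 1 → ‖v z η‖ ≤ 1 := by
    intro z hz
    calc ‖v z η‖ ≤ ‖v z‖ * ‖η‖ := (v z).le_opNorm η
      _ ≤ 1 * 1 := mul_le_mul (hvz z hz) hη (norm_nonneg _) zero_le_one
      _ = 1 := one_mul 1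
  have hvs : ∀ z : E, ‖z‖ ≤ 1 → ∀ x : K, ‖x‖ ≤ 1 → ‖star (v z) x‖ ≤ 1 := by
    intro z hz x hx
    calc ‖star (v z) x‖ ≤ ‖star (v z)‖ * ‖x‖ := (star (v z)).le_opNorm x
      _ ≤ 1 * 1 := mul_le_mul (by rw [norm_star]; exact hvz z hz) hx (norm_nonneg _) zero_le_one
      _ = 1 := one_mul 1
  have hpt1 : ∀ z : E, ‖z‖ ≤ 1 → t * ‖v z η‖ ^ 2 - ε ≤ (⟪ξ, T (star (v z) (v z η))⟫_ℂ).re := by
    intro z hz
    have h1 : ⟪ξ, T (star (v z) (v z η))⟫_ℂ = ⟪star T ξ, star (v z) (v z η)⟫_ℂ := by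
      rw [ContinuousLinearMap.star_eq_adjoint T, ContinuousLinearMap.adjoint_inner_left]
    have h2 : star T ξ = (t : ℂ) • η + (star T ξ - (t : ℂ) • η) := by abel
    rw [h1, h2, inner_add_left, Complex.add_re, inner_smul_left]
    have h3 : ⟪η, star (v z) (v z η)⟫_ℂ = ((‖v z η‖ ^ 2 : ℝ) : ℂ) := by
      rw [ContinuousLinearMap.star_eq_adjoint, ContinuousLinearMap.adjoint_inner_right,
        inner_self_eq_norm_sq_to_K]
      push_cast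
      rfl
    rw [h3, Complex.conj_ofReal, ← Complex.ofReal_mul, Complex.ofReal_re]
    have h4 : |(⟪star T ξ - (t : ℂ) • η, star (v z) (v z η)⟫_ℂ).re| ≤ ε := by
      calc |(⟪star T ξ - (t : ℂ) • η, star (v z) (v z η)⟫_ℂ).re| ≤
          ‖⟪star T ξ - (t : ℂ) • η, star (v z) (v z η)⟫_ℂ‖ := Complex.abs_re_le_norm _
        _ ≤ ‖star T ξ - (t : ℂ) • η‖ * ‖star (v z) (v z η)‖ := norm_inner_le_norm _ _
        _ ≤ ε * 1 := mul_le_mul he (hvs z hz _ (hvη z hz)) (norm_nonneg _) hε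
        _ = ε := mul_one ε
    have h5 := (abs_le.1 h4).1
    linarith
  have hpt2 : ∀ z : E, t * ‖star (v z) ξ‖ ^ 2 = (⟪ξ, v z (star (v z) (T η))⟫_ℂ).re := by
    intro z
    have h1 : ⟪ξ, v z (star (v z) (T η))⟫_ℂ = ((t * ‖star (v z) ξ‖ ^ 2 : ℝ) : ℂ) := by
      rw [htξ, map_smul, map_smul, inner_smul_right]
      have h2 : ⟪ξ, v z (star (v z) ξ)⟫_ℂ = ⟪star (v z) ξ, star (v z) ξ⟫_ℂ := by
        rw [ContinuousLinearMap.star_eq_adjoint, ContinuousLinearMap.adjoint_inner_left]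
      rw [h2, inner_self_eq_norm_sq_to_K]
      push_cast
      rfl
    rw [h1, Complex.ofReal_re]
  have hc1 : ∀ x : K, Continuous fun z : E => star (v z) x := fun x =>
    (continuous_star.comp v.continuous).clm_apply continuous_const
  have hc2 : ∀ x : K, Continuous fun z : E => v z x := fun x =>
    v.continuous.clm_apply continuous_const
  have hc3 : Continuous fun z : E => star (v z) (v z η) :=
    (continuous_star.comp v.continuous).clm_apply (hc2 η)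
  have hc4 : Continuous fun z : E => v z (star (v z) (T η)) :=
    v.continuous.clm_apply (hc1 (T η))
  have hi1 : Integrable (fun z : E => max 0 (1 - ‖z‖) *
      (‖star (v z) ξ‖ ^ 2 + ‖v z η‖ ^ 2)) μ :=
    stab_int μ _ (((hc1 ξ).norm.pow 2).add ((hc2 η).norm.pow 2))
  have hi2 : Integrable (fun z : E => max 0 (1 - ‖z‖) * ‖v z η‖ ^ 2) μ :=
    stab_int μ _ ((hc2 η).norm.pow 2)
  have hi3 : Integrable (fun z : E => max 0 (1 - ‖z‖)) μ := by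
    have := stab_int μ (fun _ : E => (1 : ℝ)) continuous_const
    simpa using this
  have hi4 : Integrable (fun z : E => max 0 (1 - ‖z‖) *
      ((⟪ξ, T (star (v z) (v z η))⟫_ℂ).re + (⟪ξ, v z (star (v z) (T η))⟫_ℂ).re)) μ := by
    refine stab_int μ _ ?_
    refine (Complex.continuous_re.comp (continuous_const.inner (T.continuous.comp hc3))).add ?_
    exact Complex.continuous_re.comp (continuous_const.inner hc4)
  refine ⟨∫ z, max 0 (1 - ‖z‖) * (‖star (v z) ξ‖ ^ 2 + ‖v z η‖ ^ 2) ∂μ, ?_, ?_, ?_⟩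
  · refine integral_mono hi2 hi1 fun z => ?_
    have h1 : (0 : ℝ) ≤ max 0 (1 - ‖z‖) := le_max_left _ _
    refine mul_le_mul_of_nonneg_left ?_ h1
    nlinarith [sq_nonneg ‖star (v z) ξ‖]
  · rw [← integral_const_mul]
    refine integral_mono hi1 (hi3.const_mul 2) fun z => ?_
    rcases le_or_gt ‖z‖ 1 with hz | hz
    · have h1 : (0 : ℝ) ≤ max 0 (1 - ‖z‖) := le_max_left _ _
      have h2 := hvs z hz ξ hξ
      have h3 := hvη z hz
      have h4 : ‖star (v z) ξ‖ ^ 2 ≤ 1 := pow_le_one₀ (norm_nonneg _) h2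
      have h5 : ‖v z η‖ ^ 2 ≤ 1 := pow_le_one₀ (norm_nonneg _) h3
      show max 0 (1 - ‖z‖) * (‖star (v z) ξ‖ ^ 2 + ‖v z η‖ ^ 2) ≤ 2 * max 0 (1 - ‖z‖)
      nlinarith
    · have h1 : max 0 (1 - ‖z‖) = 0 := max_eq_left (by linarith)
      show max 0 (1 - ‖z‖) * (‖star (v z) ξ‖ ^ 2 + ‖v z η‖ ^ 2) ≤ 2 * max 0 (1 - ‖z‖)
      rw [h1]; simp
  · have h1 := hmain ξ
    have h2 : t * (∫ z, max 0 (1 - ‖z‖) * (‖star (v z) ξ‖ ^ 2 + ‖v z η‖ ^ 2) ∂μ) -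
        ε * ∫ z, max 0 (1 - ‖z‖) ∂μ ≤ ∫ z, max 0 (1 - ‖z‖) *
        ((⟪ξ, T (star (v z) (v z η))⟫_ℂ).re + (⟪ξ, v z (star (v z) (T η))⟫_ℂ).re) ∂μ := by
      rw [← integral_const_mul, ← integral_const_mul, ← integral_sub (hi1.const_mul t) (hi3.const_mul ε)]
      refine integral_mono ((hi1.const_mul t).sub (hi3.const_mul ε)) hi4 fun z => ?_
      show t * (max 0 (1 - ‖z‖) * (‖star (v z) ξ‖ ^ 2 + ‖v z η‖ ^ 2)) - ε * max 0 (1 - ‖z‖) ≤
        max 0 (1 - ‖z‖) *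
        ((⟪ξ, T (star (v z) (v z η))⟫_ℂ).re + (⟪ξ, v z (star (v z) (T η))⟫_ℂ).re)
      rcases le_or_gt ‖z‖ 1 with hz | hz
      · have h3 : (0 : ℝ) ≤ max 0 (1 - ‖z‖) := le_max_left _ _
        have h4 := hpt1 z hz
        have h5 := hpt2 z
        have h6 : t * (‖star (v z) ξ‖ ^ 2 + ‖v z η‖ ^ 2) - ε ≤
            ((⟪ξ, T (star (v z) (v z η))⟫_ℂ).re + (⟪ξ, v z (star (v z) (T η))⟫_ℂ).re) := by
          rw [← h5]; linarith
        have h7 := mul_le_mul_of_nonneg_left h6 h3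
        calc _ = max 0 (1 - ‖z‖) * (t * (‖star (v z) ξ‖ ^ 2 + ‖v z η‖ ^ 2) - ε) := by ring
          _ ≤ _ := h7
      · have h3 : max 0 (1 - ‖z‖) = 0 := max_eq_left (by linarith)
        rw [h3]; simp
    linarith

end Pool.Agent.Helper150.Al.Stability
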