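import Mathlib

set_option autoImplicit false

open MeasureTheory Metric ComplexConjugate
open scoped InnerProductSpace

namespace Pool.Agent.Helper150.Al.TraceReal

variable {E : Type} [NormedAddCommGroup E] [NormedSpace ℂ E] [FiniteDimensional ℂ E]

theorem trace_real {n : ℕ} (b : Module.Basis (Fin n) ℂ E) (f : E →ₗ[ℝ] E) :
    LinearMap.trace ℝ E f =
      ∑ l, ((b.repr (f (b l)) l).re + (b.repr (f (Complex.I • b l)) l).im) := by
  classical
  have key := LinearMap.trace_eq_matrix_trace ℝ (Complex.basisOneI.smulTower b) f
  rw [key, Matrix.trace, Fintype.sum_prod_type, Fin.sum_univ_two, Finset.sum_add_distrib]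
  congr 1
  · refine Finset.sum_congr rfl fun l _ => ?_
    rw [Matrix.diag_apply, LinearMap.toMatrix_apply, Module.Basis.smulTower_repr,
      Module.Basis.smulTower_apply]
    simp
  · refine Finset.sum_congr rfl fun l _ => ?_
    rw [Matrix.diag_apply, LinearMap.toMatrix_apply, Module.Basis.smulTower_repr,
      Module.Basis.smulTower_apply]
    simp

end Pool.Agent.Helper150.Al.TraceReal
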