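import Mathlib
import Pool.Agent.Helper150.Al.Field
import Pool.Agent.Helper150.Al.IbpScalar
import Pool.Agent.Helper150.Al.IbpVector
import Pool.Agent.Helper150.Al.IbpLe
import Pool.Agent.Helper150.Al.Euler
import Pool.Agent.Helper150.Al.TraceReal
import Pool.Agent.Helper150.Al.LowerBound
import Pool.Agent.Helper150.Al.FieldContdiff
import Pool.Agent.Helper150.Al.FieldTrace
import Pool.Agent.Helper150.Al.FieldNorm
import Pool.Agent.Helper150.Al.MainIneq
import Pool.Agent.Helper150.Al.Stability
import Pool.Agent.Helper150.Al.Parallelogram
import Pool.Agent.Helper150.Al.Euclid
import Pool.Agent.Helper150.Al.Compactness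
import Pool.Agent.Helper150.Al.NearData

set_option autoImplicit false

namespace Pool.Agent.Helper150.Al

alias ibp_scalar := IbpScalar.ibp_scalar
alias ibp_vector := IbpVector.ibp_vector
alias ibp_le := IbpLe.ibp_le
alias euler := Euler.euler
alias trace_real := TraceReal.trace_real
alias lower_bound := LowerBound.lower_bound
alias field_contDiff := FieldContdiff.field_contDiff
alias field_trace := FieldTrace.field_trace
alias field_norm := FieldNorm.field_norm
alias main_ineq := MainIneq.main_ineq
alias stability := Stability.stability
alias parallelogram := Parallelogram.parallelogram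
alias euclid := Euclid.euclid
alias compactness := Compactness.compactness
alias near_data := NearData.near_data

end Pool.Agent.Helper150.Al
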