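import Mathlib
import Pool.Agent.Helper150.Al.Parts

set_option autoImplicit false

open MeasureTheory Metric ComplexConjugate Filter Topology
open scoped InnerProductSpace

namespace Pool.Agent.Helper150.Al

variable {E : Type} [NormedAddCommGroup E] [NormedSpace ℂ E] [FiniteDimensional ℂ E]
variable {K : Type} [NormedAddCommGroup K] [InnerProductSpace ℂ K] [CompleteSpace K]

/-- admissible data -/
structure Adm {n : ℕ} (b : Module.Basis (Fin n) ℂ E) (M : Fin n → K →L[ℂ] K)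
    (v : E →L[ℂ] (K →L[ℂ] K)) : Prop where
  hM : ∀ φ : E →L[ℂ] ℂ, ‖∑ l, φ (b l) • M l‖ ≤ ‖φ‖
  hv : ‖v‖ ≤ 1
  hc : ∀ l z, M l * v z = v z * M l
  hc' : ∀ l z, M l * star (v z) = star (v z) * M l

section
variable [MeasurableSpace E] [BorelSpace E] (μ : Measure E) [μ.IsAddHaarMeasure]

theorem full_main {n : ℕ} (b : Module.Basis (Fin n) ℂ E) (M : Fin n → K →L[ℂ] K)
    (v : E →L[ℂ] (K →L[ℂ] K)) (h : Adm b M v) (ξ η : K) :
    4 * ∫ z, max 0 (1 - ‖z‖) *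
        ((⟪ξ, (∑ l, M l * v (b l)) (star (v z) (v z η))⟫_ℂ).re +
          (⟪ξ, v z (star (v z) ((∑ l, M l * v (b l)) η))⟫_ℂ).re) ∂μ +
      ∫ z in ball (0 : E) 1, (‖z‖ ^ 2 * ‖v z η‖ ^ 2 - ‖star (v z) (v z η)‖ ^ 2) ∂μ ≤
    (2 * (n : ℝ) + 2) * ∫ z, max 0 (1 - ‖z‖) * (‖star (v z) ξ‖ ^ 2 + ‖v z η‖ ^ 2) ∂μ := by
  have hA := ibp_scalar μ
  have hB := ibp_vector μ hA
  exact main_ineq μ (fun f hf hom => euler μ hB f hf hom)
    (fun X hX B hBc hXB => ibp_le μ hB X hX B hBc hXB) b M v h.hv ξ η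
    (field_contDiff b M v ξ η) (field_trace b (trace_real b) M v h.hc h.hc' ξ η)
    (field_norm b M v h.hM h.hc ξ η)

theorem delta_nonneg (v : E →L[ℂ] (K →L[ℂ] K)) (hv : ‖v‖ ≤ 1) (η : K) (z : E) :
    0 ≤ ‖z‖ ^ 2 * ‖v z η‖ ^ 2 - ‖star (v z) (v z η)‖ ^ 2 := by
  have h1 : ‖v z‖ ≤ ‖z‖ := by
    calc ‖v z‖ ≤ ‖v‖ * ‖z‖ := v.le_opNorm z
      _ ≤ 1 * ‖z‖ := by gcongr
      _ = ‖z‖ := one_mul _
  have h2 : ‖star (v z) (v z η)‖ ≤ ‖z‖ * ‖v z η‖ := by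
    calc _ ≤ ‖star (v z)‖ * ‖v z η‖ := ContinuousLinearMap.le_opNorm _ _
      _ ≤ ‖z‖ * ‖v z η‖ := by rw [norm_star]; gcongr
  have h3 : ‖star (v z) (v z η)‖ ^ 2 ≤ (‖z‖ * ‖v z η‖) ^ 2 := by gcongr
  rw [mul_pow] at h3
  linarith

theorem rho_integrable : Integrable (fun z : E => max 0 (1 - ‖z‖)) μ := by
  apply Continuous.integrable_of_hasCompactSupport
  · fun_prop
  · apply HasCompactSupport.intro (isCompact_closedBall (0 : E) 1)
    intro z hz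
    simp only [mem_closedBall, dist_zero_right, not_le] at hz
    exact max_eq_left (by linarith)

theorem rho_nonneg : 0 ≤ ∫ z : E, max 0 (1 - ‖z‖) ∂μ :=
  integral_nonneg fun z => le_max_left _ _

/-- the lower bound for `∫ ρ |v z η|²` -/
theorem q_lower {n : ℕ} (b : Module.Basis (Fin n) ℂ E) : ∃ q : ℝ, 0 < q ∧
    ∀ (K : Type) [NormedAddCommGroup K] [InnerProductSpace ℂ K] [CompleteSpace K]
      (M : Fin n → K →L[ℂ] K) (v : E →L[ℂ] (K →L[ℂ] K)), Adm b M v → ∀ (η : K), ‖η‖ ≤ 1 →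
      ∀ τ : ℝ, 0 < τ → τ ≤ ‖(∑ l, M l * v (b l)) η‖ →
        q * τ ^ 2 ≤ ∫ z, max 0 (1 - ‖z‖) * ‖v z η‖ ^ 2 ∂μ := by
  obtain ⟨c, hc, hcl⟩ := lower_bound (E := E) μ
  set C0 : ℝ := ∑ l, ‖(LinearMap.toContinuousLinearMap (b.coord l) : E →L[ℂ] ℂ)‖ with hC0
  have hC0' : 0 ≤ C0 := Finset.sum_nonneg fun _ _ => norm_nonneg _
  set B0 : ℝ := 1 + ∑ l, ‖b l‖ with hB0
  have hB0' : 0 < B0 := by
    have : 0 ≤ ∑ l, ‖b l‖ := Finset.sum_nonneg fun _ _ => norm_nonneg _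
    linarith
  refine ⟨c / ((C0 + 1) * B0) ^ 2, by positivity, ?_⟩
  intro K _ _ _ M v h η hη τ hτ hτ2
  obtain ⟨d, cc, hd, hcc, hdn, hdz, hlast⟩ := near_data b M v h.hM h.hv η hη τ hτ hτ2
  set ℓ : E →L[ℂ] ℂ := ∑ l, d l • (LinearMap.toContinuousLinearMap (b.coord l) : E →L[ℂ] ℂ) with hℓ
  have hℓz : ∀ z, ℓ z = ∑ l, d l * b.repr z l := by
    intro z
    rw [hℓ, ContinuousLinearMap.sum_apply]
    refine Finset.sum_congr rfl fun l _ => ?_
    simp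
  have h1 : ∀ l, ‖d l‖ ≤ ‖ℓ‖ * B0 := by
    intro l
    have e1 : ℓ (b l) = d l := by
      rw [hℓz, Finset.sum_eq_single l]
      · simp
      · intro j _ hj
        simp [Finsupp.single_apply, hj.symm]
      · simp
    calc ‖d l‖ = ‖ℓ (b l)‖ := by rw [e1]
      _ ≤ ‖ℓ‖ * ‖b l‖ := ℓ.le_opNorm _
      _ ≤ ‖ℓ‖ * B0 := by
        gcongr
        have := Finset.single_le_sum (f := fun l => ‖b l‖) (fun i _ => norm_nonneg _) (Finset.mem_univ l)
        rw [hB0]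
        linarith
  have h2 : ‖d‖ ≤ ‖ℓ‖ * B0 := (pi_norm_le_iff_of_nonneg (by positivity)).2 h1
  have h3 : τ ≤ (C0 + 1) * B0 * ‖ℓ‖ := by
    calc τ ≤ C0 * ‖d‖ := hdn
      _ ≤ (C0 + 1) * (‖ℓ‖ * B0) := by gcongr; linarith
      _ = _ := by ring
  have h4 : c * ‖ℓ‖ ^ 2 ≤ ∫ z, max 0 (1 - ‖z‖) * ‖v z η‖ ^ 2 ∂μ := by
    refine (hcl ℓ).trans ?_
    have hcs : ∀ f : E → ℝ, Continuous f → Integrable (fun z => max 0 (1 - ‖z‖) * f z) μ := by
      intro f hf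
      apply Continuous.integrable_of_hasCompactSupport
      · fun_prop
      · apply HasCompactSupport.intro (isCompact_closedBall (0 : E) 1)
        intro z hz
        simp only [mem_closedBall, dist_zero_right, not_le] at hz
        rw [max_eq_left (by linarith), zero_mul]
    apply integral_mono
    · exact hcs _ (by fun_prop)
    · exact hcs _ (by fun_prop)
    · intro z
      have := hdz z
      rw [← hℓz] at this
      simp only
      gcongr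
  calc c / ((C0 + 1) * B0) ^ 2 * τ ^ 2 ≤ c / ((C0 + 1) * B0) ^ 2 * ((C0 + 1) * B0 * ‖ℓ‖) ^ 2 := by gcongr
    _ = c * ‖ℓ‖ ^ 2 := by
      field_simp
    _ ≤ _ := h4

end

/-- near-maximal vectors -/
theorem exists_near (T : K →L[ℂ] K) (hT : 0 < ‖T‖) (ε : ℝ) (hε : 0 < ε) :
    ∃ η : K, ‖η‖ ≤ 1 ∧ ‖T‖ ^ 2 - ε ^ 2 ≤ ‖T η‖ ^ 2 := by
  obtain ⟨r, hr1, hr2⟩ : ∃ r : ℝ, ‖T‖ ^ 2 - ε ^ 2 ≤ r ^ 2 ∧ 0 ≤ r ∧ r < ‖T‖ := by
    by_cases h : ‖T‖ ≤ ε
    · refine ⟨0, ?_, le_rfl, hT⟩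
      have : ‖T‖ ^ 2 ≤ ε ^ 2 := by gcongr
      nlinarith
    · push Not at h
      refine ⟨Real.sqrt (‖T‖ ^ 2 - ε ^ 2), ?_, Real.sqrt_nonneg _, ?_⟩
      · rw [Real.sq_sqrt]
        nlinarith
      · rw [Real.sqrt_lt' hT]
        nlinarith [sq_pos_of_pos hε]
  obtain ⟨x, hx1, hx2⟩ := T.exists_lt_apply_of_lt_opNorm hr2.2
  refine ⟨x, hx1.le, hr1.trans ?_⟩
  have := hr2.1
  gcongr

theorem core_bound {n : ℕ} (b : Module.Basis (Fin n) ℂ E) (M : Fin n → K →L[ℂ] K)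
    (v : E →L[ℂ] (K →L[ℂ] K)) (h : Adm b M v) :
    ‖∑ l, M l * v (b l)‖ ≤ ((n : ℝ) + 1) / 2 := by
  letI : MeasurableSpace E := borel E
  haveI : BorelSpace E := ⟨rfl⟩
  set μ : Measure E := Measure.addHaar
  obtain ⟨q, hq, hql⟩ := q_lower μ b
  by_contra hcon
  push Not at hcon
  set T := ∑ l, M l * v (b l) with hTdef
  set t := ‖T‖ with ht
  have hn0 : (0 : ℝ) ≤ n := Nat.cast_nonneg n
  have htpos : 0 < t := by linarith
  set I := ∫ z : E, max 0 (1 - ‖z‖) ∂μ with hI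
  have hI0 : 0 ≤ I := rho_nonneg μ
  have key : ∀ ε : ℝ, 0 < ε → ε < t / 2 → (4 * t - (2 * n + 2)) * (q * (t / 2) ^ 2) ≤ 4 * ε * I := by
    intro ε hε hεt
    obtain ⟨η, hη1, hη2⟩ := exists_near T htpos ε hε
    obtain ⟨Q, hQ1, hQ2, hQ3⟩ := stability μ b M v h.hv t ε htpos hε.le le_rfl η hη1 hη2
      (fun ξ => full_main μ b M v h ξ η)
    have h1 : t / 2 ≤ ‖T η‖ := by
      have : (t / 2) ^ 2 ≤ ‖T η‖ ^ 2 := by nlinarith
      exact le_of_sq_le_sq this (norm_nonneg _)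
    have h2 := hql K M v h η hη1 (t / 2) (by positivity) h1
    have h3 : 0 ≤ ∫ z in ball (0 : E) 1, (‖z‖ ^ 2 * ‖v z η‖ ^ 2 - ‖star (v z) (v z η)‖ ^ 2) ∂μ :=
      integral_nonneg fun z => delta_nonneg v h.hv η z
    have h4 : q * (t / 2) ^ 2 ≤ Q := h2.trans hQ1
    have h5 : 0 ≤ 4 * t - (2 * n + 2) := by linarith
    nlinarith
  have hlim : (4 * t - (2 * n + 2)) * (q * (t / 2) ^ 2) ≤ 0 := by
    have h1 : Tendsto (fun ε : ℝ => 4 * ε * I) (𝓝[>] 0) (𝓝 (4 * 0 * I)) := by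
      apply Tendsto.mono_left _ nhdsWithin_le_nhds
      exact ((continuous_const.mul continuous_id).mul continuous_const).tendsto 0
    rw [mul_zero, zero_mul] at h1
    refine ge_of_tendsto h1 ?_
    filter_upwards [Ioo_mem_nhdsGT (show (0 : ℝ) < t / 2 by positivity)] with ε hε
    exact key ε hε.1 hε.2
  have h5 : 0 < 4 * t - (2 * n + 2) := by linarith
  have h6 : 0 < (4 * t - (2 * n + 2)) * (q * (t / 2) ^ 2) := by positivity
  linarith

theorem core_eq {n : ℕ} (hn : 1 ≤ n) (b : Module.Basis (Fin n) ℂ E)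
    (h : ∀ ε : ℝ, 0 < ε → ∃ (K : Type) (_ : NormedAddCommGroup K) (_ : InnerProductSpace ℂ K)
      (_ : CompleteSpace K) (M : Fin n → K →L[ℂ] K) (v : E →L[ℂ] (K →L[ℂ] K)),
      Adm b M v ∧ ((n : ℝ) + 1) / 2 - ε < ‖∑ l, M l * v (b l)‖) (x y : E) :
    ‖x + y‖ * ‖x + y‖ + ‖x - y‖ * ‖x - y‖ = 2 * (‖x‖ * ‖x‖ + ‖y‖ * ‖y‖) := by
  letI : MeasurableSpace E := borel E
  haveI : BorelSpace E := ⟨rfl⟩
  set μ : Measure E := Measure.addHaar
  set C0 : ℝ := ∑ l, ‖(LinearMap.toContinuousLinearMap (b.coord l) : E →L[ℂ] ℂ)‖ with hC0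
  have hC0' : 0 ≤ C0 := Finset.sum_nonneg fun _ _ => norm_nonneg _
  set B0 : ℝ := 1 + ∑ l, ‖b l‖ with hB0
  have hB1 : 1 ≤ B0 := by
    have : 0 ≤ ∑ l, ‖b l‖ := Finset.sum_nonneg fun _ _ => norm_nonneg _
    linarith
  have hbl : ∀ l, ‖b l‖ ≤ B0 := by
    intro l
    have := Finset.single_le_sum (f := fun l => ‖b l‖) (fun i _ => norm_nonneg _) (Finset.mem_univ l)
    rw [hB0]
    linarith
  set I := ∫ z : E, max 0 (1 - ‖z‖) ∂μ with hI
  have hI0 : 0 ≤ I := rho_nonneg μ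
  have hn1 : (1 : ℝ) ≤ n := by exact_mod_cast hn
  have hcomp : ∃ (d : Fin n → ℂ) (c : Fin n → Fin n → Fin n → ℂ), d ≠ 0 ∧
      ∀ z : E, ((‖z‖ ^ 2 : ℝ) : ℂ) * ∑ l, d l * b.repr z l =
        ∑ i, ∑ j, ∑ l, c i j l * (b.repr z i * conj (b.repr z j) * b.repr z l) := by
    apply compactness μ b (B0 ^ 3) (1 / (2 * (C0 + 1))) (by positivity)
    intro ε' hε'
    obtain ⟨ε, hε, hε1, hε2⟩ : ∃ ε : ℝ, 0 < ε ∧ ε ≤ 1 / 4 ∧ 12 * ε * I ≤ ε' := by
      refine ⟨min (1 / 4) (ε' / (12 * (I + 1))), by positivity, min_le_left _ _, ?_⟩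
      calc 12 * min (1 / 4) (ε' / (12 * (I + 1))) * I ≤ 12 * (ε' / (12 * (I + 1))) * (I + 1) := by
            gcongr
            · exact min_le_right _ _
            · linarith
        _ = ε' := by field_simp
    obtain ⟨K, _, _, _, M, v, hAdm, hT⟩ := h ε hε
    set T := ∑ l, M l * v (b l) with hTdef
    set t := ‖T‖ with ht
    have ht34 : 3 / 4 ≤ t := by linarith
    have htpos : 0 < t := by linarith
    obtain ⟨η, hη1, hη2⟩ := exists_near T htpos ε hε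
    obtain ⟨Q, hQ1, hQ2, hQ3⟩ := stability μ b M v hAdm.hv t ε htpos hε.le le_rfl η hη1 hη2
      (fun ξ => full_main μ b M v hAdm ξ η)
    have h1 : 1 / 2 ≤ ‖T η‖ := by
      have : (1 / 2 : ℝ) ^ 2 ≤ ‖T η‖ ^ 2 := by nlinarith
      exact le_of_sq_le_sq this (norm_nonneg _)
    obtain ⟨d, c, hd, hc, hdn, hdz, hlast⟩ := near_data b M v hAdm.hM hAdm.hv η hη1 (1 / 2)
      (by norm_num) h1
    refine ⟨d, c, ?_, ?_, ?_, ?_⟩
    · rw [pi_norm_le_iff_of_nonneg (by positivity)]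
      intro l
      calc ‖d l‖ ≤ ‖b l‖ := hd l
        _ ≤ B0 := hbl l
        _ = B0 ^ 1 := (pow_one _).symm
        _ ≤ B0 ^ 3 := pow_le_pow_right₀ hB1 (by norm_num)
    · rw [pi_norm_le_iff_of_nonneg (by positivity)]
      intro i
      rw [pi_norm_le_iff_of_nonneg (by positivity)]
      intro j
      rw [pi_norm_le_iff_of_nonneg (by positivity)]
      intro l
      calc ‖c i j l‖ ≤ ‖b i‖ * ‖b j‖ * ‖b l‖ := hc i j l
        _ ≤ B0 * B0 * B0 := by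
          gcongr
          · exact hbl i
          · exact hbl j
          · exact hbl l
        _ = B0 ^ 3 := by ring
    · rw [div_le_iff₀ (by positivity)]
      have : 1 / 2 ≤ (C0 + 1) * ‖d‖ := hdn.trans (by gcongr; linarith)
      nlinarith
    · have hcb : ∀ f : E → ℝ, Continuous f → IntegrableOn f (ball (0 : E) 1) μ := fun f hf =>
        (hf.continuousOn.integrableOn_compact (isCompact_closedBall (0 : E) 1)).mono_set
          ball_subset_closedBall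
      have hrepr : ∀ i, Continuous fun z : E => b.repr z i := fun i =>
        (LinearMap.continuous_of_finiteDimensional (b.coord i))
      have hconj : ∀ i, Continuous fun z : E => conj (b.repr z i) := fun i =>
        continuous_star.comp (hrepr i)
      calc ∫ z in ball (0 : E) 1, ‖((‖z‖ ^ 2 : ℝ) : ℂ) * ∑ l, d l * b.repr z l -
            ∑ i, ∑ j, ∑ l, c i j l * (b.repr z i * conj (b.repr z j) * b.repr z l)‖ ^ 2 ∂μ
          ≤ ∫ z in ball (0 : E) 1, (‖z‖ ^ 2 * ‖v z η‖ ^ 2 - ‖star (v z) (v z η)‖ ^ 2) ∂μ := by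
            apply setIntegral_mono_on
            · apply hcb
              fun_prop
            · apply hcb
              fun_prop
            · exact measurableSet_ball
            · intro z hz
              rw [mem_ball, dist_zero_right] at hz
              exact hlast z hz.le
        _ ≤ (2 * (n : ℝ) + 2 - 4 * t) * Q + 4 * ε * I := hQ3
        _ ≤ ε' := by
          have hQ0 : 0 ≤ Q := (integral_nonneg fun z => by positivity).trans hQ1
          have h5 : 2 * (n : ℝ) + 2 - 4 * t ≤ 4 * ε := by linarith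
          have h6 : (2 * (n : ℝ) + 2 - 4 * t) * Q ≤ 4 * ε * (2 * I) := by
            calc _ ≤ 4 * ε * Q := by gcongr
              _ ≤ 4 * ε * (2 * I) := by gcongr
          linarith
  obtain ⟨d, c, hd, hz⟩ := hcomp
  exact parallelogram b d hd c hz x y

/-- admissible data, with a function in place of a continuous linear map -/
structure AdmF {n : ℕ} (b : Module.Basis (Fin n) ℂ E) (M : Fin n → K →L[ℂ] K)
    (f : E → (K →L[ℂ] K)) : Prop where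
  hM : ∀ φ : E →L[ℂ] ℂ, ‖∑ l, φ (b l) • M l‖ ≤ ‖φ‖
  hadd : ∀ x y, f (x + y) = f x + f y
  hsmul : ∀ (c : ℂ) x, f (c • x) = c • f x
  hn : ∀ z, ‖f z‖ ≤ ‖z‖
  hc : ∀ l z, M l * f z = f z * M l
  hc' : ∀ l z, M l * star (f z) = star (f z) * M l

theorem AdmF.exists_adm {n : ℕ} {b : Module.Basis (Fin n) ℂ E} {M : Fin n → K →L[ℂ] K}
    {f : E → (K →L[ℂ] K)} (h : AdmF b M f) :
    ∃ v : E →L[ℂ] (K →L[ℂ] K), (∀ z, v z = f z) ∧ Adm b M v := by
  refine ⟨LinearMap.mkContinuous { toFun := f, map_add' := h.hadd, map_smul' := h.hsmul } 1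
    (fun z => by rw [one_mul]; exact h.hn z), fun z => rfl, h.hM, ?_, fun l z => h.hc l z,
    fun l z => h.hc' l z⟩
  exact LinearMap.mkContinuous_norm_le _ zero_le_one _

theorem core_boundF {n : ℕ} (b : Module.Basis (Fin n) ℂ E) (M : Fin n → K →L[ℂ] K)
    (f : E → (K →L[ℂ] K)) (h : AdmF b M f) : ‖∑ l, M l * f (b l)‖ ≤ ((n : ℝ) + 1) / 2 := by
  obtain ⟨v, hv, hA⟩ := h.exists_adm
  have := core_bound b M v hA
  simpa only [hv] using this

theorem core_eqF {n : ℕ} (hn : 1 ≤ n) (b : Module.Basis (Fin n) ℂ E)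
    (h : ∀ ε : ℝ, 0 < ε → ∃ (K : Type) (_ : NormedAddCommGroup K) (_ : InnerProductSpace ℂ K)
      (_ : CompleteSpace K) (M : Fin n → K →L[ℂ] K) (f : E → (K →L[ℂ] K)),
      AdmF b M f ∧ ((n : ℝ) + 1) / 2 - ε < ‖∑ l, M l * f (b l)‖) (x y : E) :
    ‖x + y‖ * ‖x + y‖ + ‖x - y‖ * ‖x - y‖ = 2 * (‖x‖ * ‖x‖ + ‖y‖ * ‖y‖) := by
  apply core_eq hn b
  intro ε hε
  obtain ⟨K, h1, h2, h3, M, f, hA, hT⟩ := h ε hε
  obtain ⟨v, hv, hA'⟩ := hA.exists_adm
  refine ⟨K, h1, h2, h3, M, v, hA', ?_⟩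
  simpa only [hv] using hT

end Pool.Agent.Helper150.Al
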