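import Mathlib
import Pool.Agent.Helper150.Al.Core
import Pool.Agent.Helper547.Alpha.Upper
import Pool.Agent.Helper547.Alpha.Fock

set_option autoImplicit false

open ComplexConjugate
open scoped InnerProductSpace
open scoped Matrix.Norms.L2Operator

namespace Pool.Agent.Helper150.Al

open Pool.Agent.Helper547.Alpha

variable {E : Type} [NormedAddCommGroup E] [NormedSpace ℂ E]
variable {H : Type} [NormedAddCommGroup H] [InnerProductSpace ℂ H]

theorem adm_of [FiniteDimensional ℂ E] [CompleteSpace H] {n m : ℕ} (b : Module.Basis (Fin n) ℂ E)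
    (x : Matrix (Fin m) (Fin m) E) (hx : minNorm m x ≤ 1) (u : E →L[ℂ] (H →L[ℂ] H)) (hu : ‖u‖ ≤ 1) :
    AdmF b (fun l => matOp H (Matrix.of fun i j => b.repr (x i j) l)) (fun z => diagOp m (u z)) where
  hM := by
    intro φ
    rw [← matOp_sum]
    refine (matOp_norm_le _).trans ?_
    have e1 : ∑ l, φ (b l) • (Matrix.of fun i j => b.repr (x i j) l) = x.map φ := by
      ext i j
      rw [Matrix.sum_apply, Matrix.map_apply]
      simp only [Matrix.smul_apply, Matrix.of_apply, smul_eq_mul]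
      conv_rhs => rw [← b.sum_repr (x i j), map_sum]
      refine Finset.sum_congr rfl fun l _ => ?_
      rw [map_smul, smul_eq_mul, mul_comm]
    rw [e1]
    rcases (norm_nonneg φ).eq_or_lt with h0 | h0
    · have hφ : φ = 0 := norm_eq_zero.1 h0.symm
      rw [hφ]
      have : x.map (⇑(0 : E →L[ℂ] ℂ)) = 0 := by
        ext i j; simp
      rw [this, norm_zero, norm_zero]
    · have h1 := map_le_of_minNorm hx (((‖φ‖⁻¹ : ℝ) : ℂ) • φ) (by
        rw [norm_smul, Complex.norm_real, Real.norm_of_nonneg (inv_nonneg.2 h0.le),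
          inv_mul_cancel₀ h0.ne'])
      have h2 : x.map (⇑(((‖φ‖⁻¹ : ℝ) : ℂ) • φ)) = ((‖φ‖⁻¹ : ℝ) : ℂ) • x.map φ := by
        ext i j; simp
      rw [h2, norm_smul, Complex.norm_real, Real.norm_of_nonneg (inv_nonneg.2 h0.le)] at h1
      rwa [inv_mul_le_iff₀ h0, mul_one] at h1
  hadd := by
    intro x y
    ext ξ i
    simp [diagOp_apply]
  hsmul := by
    intro c x
    ext ξ i
    simp [diagOp_apply]
  hn := by
    intro z
    refine (diagOp_norm_le _).trans ((u.le_opNorm z).trans ?_)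
    calc ‖u‖ * ‖z‖ ≤ 1 * ‖z‖ := by gcongr
      _ = ‖z‖ := one_mul _
  hc := fun l z => mat_diag_comm _ _
  hc' := by
    intro l z
    rw [diagOp_star]
    exact mat_diag_comm _ _

theorem opNorm_le_of [FiniteDimensional ℂ E] {n m : ℕ} (b : Module.Basis (Fin n) ℂ E)
    (x : Matrix (Fin m) (Fin m) E) (u : E →L[ℂ] (H →L[ℂ] H)) :
    opNorm H m (x.map u) ≤
      ‖∑ l, matOp H (Matrix.of fun i j => b.repr (x i j) l) * diagOp m (u (b l))‖ := by
  apply opNorm_le_tensor x u (fun l => Matrix.of fun i j => b.repr (x i j) l) (fun l => b l)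
  · intro i j
    simp only [Matrix.of_apply]
    exact (b.sum_repr (x i j)).symm
  · exact le_rfl

theorem tensor_le [FiniteDimensional ℂ E] [CompleteSpace H] {n m : ℕ}
    (b : Module.Basis (Fin n) ℂ E)
    (x : Matrix (Fin m) (Fin m) E) (hx : minNorm m x ≤ 1) (u : E →L[ℂ] (H →L[ℂ] H)) (hu : ‖u‖ ≤ 1) :
    ‖∑ l, matOp H (Matrix.of fun i j => b.repr (x i j) l) * diagOp m (u (b l))‖ ≤
      ((n : ℝ) + 1) / 2 := by
  have h := adm_of b x hx u hu
  have h2 := core_boundF (K := HK m H) b _ _ h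
  exact h2

theorem ub_all [FiniteDimensional ℂ E] {n : ℕ} (hn : Module.finrank ℂ E = n) :
    UB E (((n : ℝ) + 1) / 2) := by
  intro m x hx H _ _ _ u hu
  have b : Module.Basis (Fin n) ℂ E := Module.finBasisOfFinrankEq ℂ E hn
  have h1 := opNorm_le_of b x u
  have h2 := tensor_le b x hx u hu
  exact h1.trans h2

theorem alpha_le_all [FiniteDimensional ℂ E] {n : ℕ} (hn : Module.finrank ℂ E = n) :
    alpha E ≤ ((n : ℝ) + 1) / 2 := alpha_le (ub_all hn)

/-- equality forces Hilbert space -/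
theorem euclid_of_alpha [FiniteDimensional ℂ E] {n : ℕ} (hn1 : 1 ≤ n)
    (hn : Module.finrank ℂ E = n) (h : ((n : ℝ) + 1) / 2 ≤ alpha E) :
    Nonempty (E ≃ₗᵢ[ℂ] EuclideanSpace ℂ (Fin n)) := by
  let b : Module.Basis (Fin n) ℂ E := Module.finBasisOfFinrankEq ℂ E hn
  apply euclid hn
  apply core_eqF hn1 b
  intro ε hε
  -- find nearly optimal data
  have hne : {r : ℝ | ∃ (m : ℕ) (x : Matrix (Fin m) (Fin m) E), minNorm m x ≤ 1 ∧
      r = maxNorm m x}.Nonempty := by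
    exact ⟨_, 0, 0, minNorm_le (fun f _ => by simp), rfl⟩
  obtain ⟨r, ⟨m, x, hx, rfl⟩, hr⟩ := exists_lt_of_lt_csSup hne
    (show ((n : ℝ) + 1) / 2 - ε < alpha E by linarith)
  have hne2 : {r : ℝ | ∃ (H : Type) (_ : NormedAddCommGroup H) (_ : InnerProductSpace ℂ H)
    (_ : CompleteSpace H) (u : E →L[ℂ] (H →L[ℂ] H)), ‖u‖ ≤ 1 ∧ r = opNorm H m (x.map u)}.Nonempty :=
    ⟨_, ℂ, inferInstance, inferInstance, inferInstance, 0, by simp, rfl⟩
  obtain ⟨r, ⟨H, _, _, _, u, hu, rfl⟩, hr2⟩ := exists_lt_of_lt_csSup hne2 hr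
  exact ⟨HK m H, inferInstance, inferInstance, inferInstance, _, _, adm_of b x hx u hu,
    hr2.trans_le (opNorm_le_of b x u)⟩

/-! ### invariance under isometries -/

theorem minNorm_map {F : Type} [NormedAddCommGroup F] [NormedSpace ℂ F] (e : E ≃ₗᵢ[ℂ] F) {m : ℕ}
    (x : Matrix (Fin m) (Fin m) E) : minNorm m (x.map e) = minNorm m x := by
  unfold minNorm
  congr 1
  ext r
  constructor
  · rintro ⟨f, hf, rfl⟩
    refine ⟨f.comp (e.toContinuousLinearEquiv : E →L[ℂ] F), ?_, ?_⟩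
    · refine ContinuousLinearMap.opNorm_le_bound _ zero_le_one fun z => ?_
      calc ‖f (e z)‖ ≤ ‖f‖ * ‖e z‖ := f.le_opNorm _
        _ ≤ 1 * ‖z‖ := by rw [e.norm_map]; gcongr
    · rfl
  · rintro ⟨f, hf, rfl⟩
    refine ⟨f.comp (e.symm.toContinuousLinearEquiv : F →L[ℂ] E), ?_, ?_⟩
    · refine ContinuousLinearMap.opNorm_le_bound _ zero_le_one fun z => ?_
      calc ‖f (e.symm z)‖ ≤ ‖f‖ * ‖e.symm z‖ := f.le_opNorm _
        _ ≤ 1 * ‖z‖ := by rw [e.symm.norm_map]; gcongr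
    · congr 1
      ext i j
      simp

theorem maxNorm_map {F : Type} [NormedAddCommGroup F] [NormedSpace ℂ F] (e : E ≃ₗᵢ[ℂ] F) {m : ℕ}
    (x : Matrix (Fin m) (Fin m) E) : maxNorm m (x.map e) = maxNorm m x := by
  unfold maxNorm
  congr 1
  ext r
  constructor
  · rintro ⟨H, h1, h2, h3, u, hu, rfl⟩
    refine ⟨H, h1, h2, h3, u.comp (e.toContinuousLinearEquiv : E →L[ℂ] F), ?_, ?_⟩
    · refine ContinuousLinearMap.opNorm_le_bound _ zero_le_one fun z => ?_
      calc ‖u (e z)‖ ≤ ‖u‖ * ‖e z‖ := u.le_opNorm _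
        _ ≤ 1 * ‖z‖ := by rw [e.norm_map]; gcongr
    · rfl
  · rintro ⟨H, h1, h2, h3, u, hu, rfl⟩
    refine ⟨H, h1, h2, h3, u.comp (e.symm.toContinuousLinearEquiv : F →L[ℂ] E), ?_, ?_⟩
    · refine ContinuousLinearMap.opNorm_le_bound _ zero_le_one fun z => ?_
      calc ‖u (e.symm z)‖ ≤ ‖u‖ * ‖e.symm z‖ := u.le_opNorm _
        _ ≤ 1 * ‖z‖ := by rw [e.symm.norm_map]; gcongr
    · congr 1
      ext i j : 2
      simp

theorem alpha_congr {F : Type} [NormedAddCommGroup F] [NormedSpace ℂ F] (e : E ≃ₗᵢ[ℂ] F) :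
    alpha E = alpha F := by
  unfold alpha
  congr 1
  ext r
  constructor
  · rintro ⟨m, x, hx, rfl⟩
    exact ⟨m, x.map e, by rwa [minNorm_map], (maxNorm_map e x).symm⟩
  · rintro ⟨m, x, hx, rfl⟩
    exact ⟨m, x.map e.symm, by rwa [minNorm_map], (maxNorm_map e.symm x).symm⟩

end Pool.Agent.Helper150.Al
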