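import Mathlib

set_option autoImplicit false

open MeasureTheory Metric ComplexConjugate
open scoped InnerProductSpace

namespace Pool.Agent.Helper150.Al.Compactness

variable {E : Type} [NormedAddCommGroup E] [NormedSpace ℂ E] [FiniteDimensional ℂ E]

variable [MeasurableSpace E] [BorelSpace E] (μ : Measure E) [μ.IsAddHaarMeasure]

/-- the defect function -/
noncomputable def compG {n : ℕ} (b : Module.Basis (Fin n) ℂ E)
    (p : (Fin n → ℂ) × (Fin n → Fin n → Fin n → ℂ)) (z : E) : ℂ :=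
  ((‖z‖ ^ 2 : ℝ) : ℂ) * ∑ l, p.1 l * b.repr z l -
        ∑ i, ∑ j, ∑ l, p.2 i j l * (b.repr z i * conj (b.repr z j) * b.repr z l)

omit [MeasurableSpace E] [BorelSpace E] in
theorem compG_continuous {n : ℕ} (b : Module.Basis (Fin n) ℂ E) :
    Continuous (fun q : ((Fin n → ℂ) × (Fin n → Fin n → Fin n → ℂ)) × E => compG b q.1 q.2) := by
  have hrep : ∀ l, Continuous fun z : E => b.repr z l := by
    intro l
    have := LinearMap.continuous_of_finiteDimensional (b.coord l)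
    exact this
  have h1 : ∀ l, Continuous
      (fun q : ((Fin n → ℂ) × (Fin n → Fin n → Fin n → ℂ)) × E => b.repr q.2 l) :=
    fun l => (hrep l).comp continuous_snd
  have h2 : ∀ l, Continuous
      (fun q : ((Fin n → ℂ) × (Fin n → Fin n → Fin n → ℂ)) × E => conj (b.repr q.2 l)) :=
    fun l => Complex.continuous_conj.comp (h1 l)
  have h3 : ∀ l, Continuous
      (fun q : ((Fin n → ℂ) × (Fin n → Fin n → Fin n → ℂ)) × E => q.1.1 l) :=
    fun l => (continuous_apply l).comp (continuous_fst.comp continuous_fst)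
  have h4 : ∀ i j l, Continuous
      (fun q : ((Fin n → ℂ) × (Fin n → Fin n → Fin n → ℂ)) × E => q.1.2 i j l) :=
    fun i j l => (continuous_apply l).comp ((continuous_apply j).comp
      ((continuous_apply i).comp (continuous_snd.comp continuous_fst)))
  unfold compG
  refine Continuous.sub (Continuous.mul ?_ ?_) ?_
  · exact Complex.continuous_ofReal.comp ((continuous_snd.norm).pow 2)
  · exact continuous_finsetSum _ fun l _ => (h3 l).mul (h1 l)
  · exact continuous_finsetSum _ fun i _ => continuous_finsetSum _ fun j _ =>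
      continuous_finsetSum _ fun l _ => (h4 i j l).mul (((h1 i).mul (h2 j)).mul (h1 l))

omit [FiniteDimensional ℂ E] [MeasurableSpace E] [BorelSpace E] in
theorem compG_smul {n : ℕ} (b : Module.Basis (Fin n) ℂ E)
    (p : (Fin n → ℂ) × (Fin n → Fin n → Fin n → ℂ)) (z : E) (s : ℝ) :
    compG b p ((s : ℂ) • z) = (s : ℂ) ^ 3 * compG b p z := by
  unfold compG
  have hn : ((‖(s : ℂ) • z‖ ^ 2 : ℝ) : ℂ) = (s : ℂ) ^ 2 * ((‖z‖ ^ 2 : ℝ) : ℂ) := by
    rw [norm_smul, mul_pow, Complex.norm_real, Real.norm_eq_abs, sq_abs]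
    push_cast; ring
  rw [hn, mul_sub]
  congr 1
  · simp only [Finset.mul_sum]
    refine Finset.sum_congr rfl fun l _ => ?_
    simp only [map_smul, Finsupp.coe_smul, Pi.smul_apply, smul_eq_mul]
    ring
  · simp only [Finset.mul_sum]
    refine Finset.sum_congr rfl fun i _ => Finset.sum_congr rfl fun j _ =>
      Finset.sum_congr rfl fun l _ => ?_
    simp only [map_smul, Finsupp.coe_smul, Pi.smul_apply, smul_eq_mul, map_mul,
      Complex.conj_ofReal]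
    ring

theorem compJ_continuous {n : ℕ} (b : Module.Basis (Fin n) ℂ E) :
    Continuous fun p : (Fin n → ℂ) × (Fin n → Fin n → Fin n → ℂ) =>
      ∫ z in ball (0 : E) 1, ‖compG b p z‖ ^ 2 ∂μ := by
  have : ProperSpace E := FiniteDimensional.proper ℂ E
  have hG := compG_continuous b
  have hF : Continuous (Function.uncurry
      fun (p : (Fin n → ℂ) × (Fin n → Fin n → Fin n → ℂ)) (z : E) => ‖compG b p z‖ ^ 2) :=
    (hG.norm).pow 2
  have h1 := continuous_parametric_integral_of_continuous (μ := μ.restrict (ball (0 : E) 1))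
      hF (isCompact_closedBall (0 : E) 1)
  have h2 : (μ.restrict (ball (0 : E) 1)).restrict (closedBall (0 : E) 1) =
      μ.restrict (ball (0 : E) 1) := by
    rw [Measure.restrict_restrict measurableSet_closedBall,
      Set.inter_eq_self_of_subset_right ball_subset_closedBall]
  rw [h2] at h1
  exact h1

theorem comp_vanish {n : ℕ} (b : Module.Basis (Fin n) ℂ E)
    (p : (Fin n → ℂ) × (Fin n → Fin n → Fin n → ℂ))
    (h0 : ∫ z in ball (0 : E) 1, ‖compG b p z‖ ^ 2 ∂μ = 0) (z : E) : compG b p z = 0 := by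
  have : ProperSpace E := FiniteDimensional.proper ℂ E
  have hG := compG_continuous b
  have hGp : Continuous fun z : E => compG b p z := hG.comp (Continuous.prodMk_right p)
  have hFp : Continuous fun z : E => ‖compG b p z‖ ^ 2 := (hGp.norm).pow 2
  have hint : IntegrableOn (fun z : E => ‖compG b p z‖ ^ 2) (ball (0 : E) 1) μ :=
    (hFp.continuousOn.integrableOn_compact (isCompact_closedBall (0 : E) 1)).mono_set
      ball_subset_closedBall
  have hnn : (0 : E → ℝ) ≤ fun z : E => ‖compG b p z‖ ^ 2 := fun z => sq_nonneg _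
  have hae := (integral_eq_zero_iff_of_nonneg hnn hint).mp h0
  have heq := Measure.eqOn_open_of_ae_eq hae isOpen_ball hFp.continuousOn continuousOn_const
  have hGz : ∀ z ∈ ball (0 : E) 1, compG b p z = 0 := by
    intro z hz
    have h7 : ‖compG b p z‖ ^ 2 = 0 := heq hz
    exact norm_eq_zero.mp (pow_eq_zero_iff (two_ne_zero) |>.mp h7)
  have hs : (0 : ℝ) < 1 / (‖z‖ + 1) := by positivity
  have hz : ((1 / (‖z‖ + 1) : ℝ) : ℂ) • z ∈ ball (0 : E) 1 := by
    rw [mem_ball_zero_iff, norm_smul, Complex.norm_real, Real.norm_eq_abs, abs_of_pos hs,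
      one_div, inv_mul_lt_iff₀ (by positivity)]
    linarith
  have h9 := hGz _ hz
  rw [compG_smul] at h9
  rcases mul_eq_zero.mp h9 with h10 | h10
  · exfalso
    have h11 : ((1 / (‖z‖ + 1) : ℝ) : ℂ) ≠ 0 := by
      exact_mod_cast hs.ne'
    exact pow_ne_zero 3 h11 h10
  · exact h10

theorem compactness_aux {n : ℕ} (b : Module.Basis (Fin n) ℂ E) (R r : ℝ) (hr : 0 < r)
    (h : ∀ ε : ℝ, 0 < ε → ∃ p : (Fin n → ℂ) × (Fin n → Fin n → Fin n → ℂ),
      ‖p.1‖ ≤ R ∧ ‖p.2‖ ≤ R ∧ r ≤ ‖p.1‖ ∧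
      ∫ z in ball (0 : E) 1, ‖compG b p z‖ ^ 2 ∂μ ≤ ε) :
    ∃ p : (Fin n → ℂ) × (Fin n → Fin n → Fin n → ℂ), r ≤ ‖p.1‖ ∧ ∀ z : E, compG b p z = 0 := by
  have hJ := compJ_continuous μ b
  have hKclosed : IsClosed {p : (Fin n → ℂ) × (Fin n → Fin n → Fin n → ℂ) |
      ‖p.1‖ ≤ R ∧ ‖p.2‖ ≤ R ∧ r ≤ ‖p.1‖} :=
    (isClosed_le continuous_fst.norm continuous_const).inter
      ((isClosed_le continuous_snd.norm continuous_const).inter
        (isClosed_le continuous_const continuous_fst.norm))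
  have hKbdd : Bornology.IsBounded {p : (Fin n → ℂ) × (Fin n → Fin n → Fin n → ℂ) |
      ‖p.1‖ ≤ R ∧ ‖p.2‖ ≤ R ∧ r ≤ ‖p.1‖} := by
    refine (isBounded_closedBall (x := (0 : (Fin n → ℂ) × (Fin n → Fin n → Fin n → ℂ)))
      (r := R)).subset ?_
    intro p hp
    rw [mem_closedBall_zero_iff, Prod.norm_def]
    exact max_le hp.1 hp.2.1
  have hK := isCompact_of_isClosed_isBounded hKclosed hKbdd
  have hKne : {p : (Fin n → ℂ) × (Fin n → Fin n → Fin n → ℂ) |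
      ‖p.1‖ ≤ R ∧ ‖p.2‖ ≤ R ∧ r ≤ ‖p.1‖}.Nonempty := by
    obtain ⟨p, h1, h2, h3, -⟩ := h 1 one_pos
    exact ⟨p, h1, h2, h3⟩
  obtain ⟨p, hpK, hpmin⟩ := hK.exists_isMinOn hKne hJ.continuousOn
  have hJle : ∫ z in ball (0 : E) 1, ‖compG b p z‖ ^ 2 ∂μ ≤ 0 := by
    refine le_of_forall_pos_le_add fun ε hε => ?_
    obtain ⟨q, h1, h2, h3, h4⟩ := h ε hε
    have h5 := hpmin (show q ∈ {p : (Fin n → ℂ) × (Fin n → Fin n → Fin n → ℂ) |
      ‖p.1‖ ≤ R ∧ ‖p.2‖ ≤ R ∧ r ≤ ‖p.1‖} from ⟨h1, h2, h3⟩)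
    have h6 : ∫ z in ball (0 : E) 1, ‖compG b p z‖ ^ 2 ∂μ ≤
      ∫ z in ball (0 : E) 1, ‖compG b q z‖ ^ 2 ∂μ := h5
    linarith
  have hJ0 : ∫ z in ball (0 : E) 1, ‖compG b p z‖ ^ 2 ∂μ = 0 :=
    le_antisymm hJle (integral_nonneg fun z => sq_nonneg _)
  exact ⟨p, hpK.2.2, comp_vanish μ b p hJ0⟩

theorem compactness {n : ℕ} (b : Module.Basis (Fin n) ℂ E) (R r : ℝ) (hr : 0 < r)
    (h : ∀ ε : ℝ, 0 < ε → ∃ (d : Fin n → ℂ) (c : Fin n → Fin n → Fin n → ℂ),
      ‖d‖ ≤ R ∧ ‖c‖ ≤ R ∧ r ≤ ‖d‖ ∧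
      ∫ z in ball (0 : E) 1, ‖((‖z‖ ^ 2 : ℝ) : ℂ) * ∑ l, d l * b.repr z l -
        ∑ i, ∑ j, ∑ l, c i j l * (b.repr z i * conj (b.repr z j) * b.repr z l)‖ ^ 2 ∂μ ≤ ε) :
    ∃ (d : Fin n → ℂ) (c : Fin n → Fin n → Fin n → ℂ), d ≠ 0 ∧
      ∀ z : E, ((‖z‖ ^ 2 : ℝ) : ℂ) * ∑ l, d l * b.repr z l =
        ∑ i, ∑ j, ∑ l, c i j l * (b.repr z i * conj (b.repr z j) * b.repr z l) := by
  have h' : ∀ ε : ℝ, 0 < ε → ∃ p : (Fin n → ℂ) × (Fin n → Fin n → Fin n → ℂ),
      ‖p.1‖ ≤ R ∧ ‖p.2‖ ≤ R ∧ r ≤ ‖p.1‖ ∧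
      ∫ z in ball (0 : E) 1, ‖compG b p z‖ ^ 2 ∂μ ≤ ε := by
    intro ε hε
    obtain ⟨d, c, h1, h2, h3, h4⟩ := h ε hε
    exact ⟨(d, c), h1, h2, h3, h4⟩
  obtain ⟨p, hp, hz⟩ := compactness_aux μ b R r hr h'
  refine ⟨p.1, p.2, ?_, fun z => ?_⟩
  · intro h0
    rw [h0, norm_zero] at hp
    linarith
  · exact sub_eq_zero.mp (hz z)

end Pool.Agent.Helper150.Al.Compactness
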