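import Mathlib
import Pool.Agent.Helper150.Al.AlphaLevel
import Pool.Agent.Helper150.Cb.John
import Pool.Agent.Helper150.Cb.OpCore

set_option autoImplicit false

open ComplexConjugate
open scoped InnerProductSpace
open scoped Matrix.Norms.L2Operator

namespace Pool.Agent.Helper150.Al

open Pool.Agent.Helper547.Alpha
open Pool.Agent.Helper150.Cb (dotc)

variable {E : Type} [NormedAddCommGroup E] [NormedSpace ℂ E]

/-- for every `n ≥ 2`: `α(E) ≤ n / √2` -/
theorem ub_john [FiniteDimensional ℂ E] {n : ℕ} (hn2 : 2 ≤ n) (hn : Module.finrank ℂ E = n) :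
    UB E ((n : ℝ) / Real.sqrt 2) := by
  intro m x hx H _ _ _ u hu
  obtain ⟨w, N, lam, h, hw, hlam, hunit, hdot, hframe⟩ :=
    Pool.Agent.Helper150.Cb.PartJohn.john (by omega) (X := E) hn
  apply opNorm_le (by positivity)
  intro ξ
  have hcore := Pool.Agent.Helper150.Cb.PartOpCore.op_core hn2 lam h hlam hunit hframe
    (fun l => Matrix.of fun i j => w.symm (x i j) l) ?_ (K := H) (L := H)
    (fun l => (u (w (Pi.single l 1)) : H →ₗ[ℂ] H)) ?_ ξ
  · have e1 : ∀ i j (η : H), u (x i j) η = ∑ l, w.symm (x i j) l • u (w (Pi.single l 1)) η := by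
      intro i j η
      have e2 : x i j = ∑ l, w.symm (x i j) l • w (Pi.single l 1) := by
        conv_lhs => rw [← w.apply_symm_apply (x i j)]
        conv_lhs => rw [← Finset.univ_sum_single (w.symm (x i j))]
        rw [map_sum]
        refine Finset.sum_congr rfl fun l _ => ?_
        rw [← map_smul]
        congr 1
        ext k
        by_cases hk : k = l
        · subst hk; simp
        · simp [Pi.single_eq_of_ne hk]
      conv_lhs => rw [e2]
      rw [map_sum, _root_.sum_apply]
      refine Finset.sum_congr rfl fun l _ => ?_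
      rw [map_smul]
      rfl
    have e3 : ((n : ℝ) / Real.sqrt 2) ^ 2 = (n : ℝ) ^ 2 / 2 := by
      rw [div_pow, Real.sq_sqrt (by norm_num)]
    rw [e3]
    refine le_trans (le_of_eq ?_) hcore
    refine Finset.sum_congr rfl fun i _ => ?_
    congr 2
    rw [Finset.sum_comm]
    refine Finset.sum_congr rfl fun j _ => ?_
    rw [Matrix.map_apply, e1]
    rfl
  · intro k η
    -- the functional
    let φ : E →ₗ[ℂ] ℂ :=
      { toFun := fun y => dotc (h k) (w.symm y)
        map_add' := by
          intro a b
          simp [dotc, mul_add, Finset.sum_add_distrib]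
        map_smul' := by
          intro c a
          simp only [dotc, map_smul, Pi.smul_apply, smul_eq_mul, RingHom.id_apply, Finset.mul_sum]
          refine Finset.sum_congr rfl fun l _ => ?_
          ring }
    have hφ : ∀ y, ‖φ y‖ ≤ 1 * ‖y‖ := by
      intro y
      have := hdot k (w.symm y)
      rw [w.apply_symm_apply] at this
      rw [one_mul]
      exact this
    have h1 := map_le_of_minNorm hx (φ.mkContinuous 1 hφ)
      (LinearMap.mkContinuous_norm_le _ zero_le_one _)
    have h2 := (l2_le_iff (x.map (φ.mkContinuous 1 hφ)) zero_le_one).1 h1 η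
    rw [one_pow, one_mul] at h2
    refine le_trans (le_of_eq ?_) h2
    refine Finset.sum_congr rfl fun p _ => ?_
    rfl
  · intro z ξ'
    have e1 : (∑ l, z l • (u (w (Pi.single l 1)) : H →ₗ[ℂ] H) ξ') = u (w z) ξ' := by
      have e2 : w z = ∑ l, z l • w (Pi.single l 1) := by
        conv_lhs => rw [← Finset.univ_sum_single z]
        rw [map_sum]
        refine Finset.sum_congr rfl fun l _ => ?_
        rw [← map_smul]
        congr 1
        ext k
        by_cases hk : k = l
        · subst hk; simp
        · simp [Pi.single_eq_of_ne hk]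
      rw [e2, map_sum, _root_.sum_apply]
      refine Finset.sum_congr rfl fun l _ => ?_
      rw [map_smul]
      rfl
    rw [e1]
    calc ‖u (w z) ξ'‖ ^ 2 ≤ (‖u (w z)‖ * ‖ξ'‖) ^ 2 := by
          gcongr
          exact ContinuousLinearMap.le_opNorm _ _
      _ ≤ (‖w z‖ * ‖ξ'‖) ^ 2 := by
          gcongr
          calc ‖u (w z)‖ ≤ ‖u‖ * ‖w z‖ := u.le_opNorm _
            _ ≤ 1 * ‖w z‖ := by gcongr
            _ = _ := one_mul _
      _ = ‖w z‖ ^ 2 * ‖ξ'‖ ^ 2 := by rw [mul_pow]
      _ ≤ _ := by
          gcongr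
          exact hw z

theorem alpha_le_two [FiniteDimensional ℂ E] (hn : Module.finrank ℂ E = 2) :
    alpha E ≤ Real.sqrt 2 := by
  have h := alpha_le (ub_john le_rfl hn)
  refine h.trans (le_of_eq ?_)
  rw [div_eq_iff (by positivity)]
  have := Real.mul_self_sqrt (show (0 : ℝ) ≤ 2 by norm_num)
  push_cast
  linarith

/-- `α(ℓ_2²) = √2` -/
theorem alpha_l2_two : alpha (EuclideanSpace ℂ (Fin 2)) = Real.sqrt 2 := by
  refine le_antisymm (alpha_le_two (by simp)) ?_
  have h := lower_fock 2 1 (by omega)
  refine le_trans (le_of_eq ?_) h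
  congr 1
  norm_num

end Pool.Agent.Helper150.Al
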